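import Pool.Agent.Helper62.EC.Split

/-!
# The Artin–Schreier algebras `t ^ p - t = y f`
-/

set_option autoImplicit false

open CategoryTheory AlgebraicGeometry Polynomial Pool.Agent.Y116.UV

namespace Pool.Agent.Helper62.EC

section clo

variable {D : Type} [CommRing D] (p : ℕ) (f : D)

/-- the coordinate ring of `f = 0`, times the affine line -/
abbrev Gf : Type := (D ⧸ Ideal.span {f})[X]

/-- `p - 1` copies -/
abbrev Ef : Type := AdjoinRoot (X ^ (p - 1) - 1 : (Gf f)[X])

lemma ef_root : (AdjoinRoot.root (X ^ (p - 1) - 1 : (Gf f)[X])) ^ (p - 1) = 1 := by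
  have h : (X ^ (p - 1) - 1 : (Gf f)[X]).eval₂ (AdjoinRoot.of _) (AdjoinRoot.root _) = 0 :=
    AdjoinRoot.eval₂_root _
  rw [eval₂_sub, eval₂_X_pow, eval₂_one] at h
  exact sub_eq_zero.1 h

lemma ef_f : algebraMap D (Ef p f) f = 0 := by
  have h1 : algebraMap D (Ef p f) f = algebraMap (D ⧸ Ideal.span {f}) (Ef p f)
      (algebraMap D (D ⧸ Ideal.span {f}) f) := rfl
  have h2 : algebraMap D (D ⧸ Ideal.span {f}) f = 0 :=
    Ideal.Quotient.eq_zero_iff_mem.2 (Ideal.mem_span_singleton_self f)
  rw [h1, h2, map_zero]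

/-- the coordinate `y` -/
noncomputable def ey : Ef p f := algebraMap (Gf f) (Ef p f) X

/-- the coordinate `t` -/
noncomputable def et : Ef p f := AdjoinRoot.root _

/-- restriction -/
noncomputable def resE (hp : 2 ≤ p) : AS p (yf f) →ₐ[D] Ef p f :=
  asLift (aeval (ey p f)) (et p f) (by
    rw [pow_split p hp, et, ef_root, sub_self, mul_zero, yf, map_mul, aeval_C, ef_f, mul_zero])

lemma resE_rt (hp : 2 ≤ p) : resE p f hp (rt p (yf f)) = et p f := asLift_rt _ _ _

lemma resE_yy (hp : 2 ≤ p) : resE p f hp (yy p f) = ey p f := by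
  rw [resE, yy, asLift_of, aeval_X]

/-- from the closed subscheme -/
noncomputable def cloF (hp : 2 ≤ p) : (AS p (yf f) ⧸ Ideal.span {s₁ p f, s₂ p f}) →ₐ[D] Ef p f :=
  Ideal.Quotient.liftₐ _ (resE p f hp) (by
    intro a ha
    have h1 : Ideal.span {s₁ p f, s₂ p f} ≤ RingHom.ker (resE p f hp) := by
      rw [Ideal.span_le]
      rintro x (rfl | rfl)
      · change resE p f hp (rt p (yf f) ^ (p - 1) - 1) = 0
        rw [map_sub, map_pow, resE_rt, et, ef_root, map_one, sub_self]
      · change resE p f hp (algebraMap D _ f) = 0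
        rw [AlgHom.commutes, ef_f]
    exact h1 ha)

lemma cloF_mk (hp : 2 ≤ p) (a : AS p (yf f)) :
    cloF p f hp (Ideal.Quotient.mk _ a) = resE p f hp a := rfl

/-- to the closed subscheme -/
noncomputable def cloG0 : Gf f →ₐ[D] (AS p (yf f) ⧸ Ideal.span {s₁ p f, s₂ p f}) :=
  eval₂AlgHom (Ideal.Quotient.liftₐ (Ideal.span {f})
    (Algebra.ofId D (AS p (yf f) ⧸ Ideal.span {s₁ p f, s₂ p f})) (by
      intro a ha
      rw [Ideal.mem_span_singleton] at ha
      obtain ⟨c, rfl⟩ := ha
      rw [map_mul]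
      have h1 : Algebra.ofId D (AS p (yf f) ⧸ Ideal.span {s₁ p f, s₂ p f}) f = 0 := by
        change Ideal.Quotient.mk _ (s₂ p f) = 0
        exact Ideal.Quotient.eq_zero_iff_mem.2 (Ideal.subset_span (by simp))
      rw [h1, zero_mul])) (Ideal.Quotient.mk _ (yy p f)) fun _ => Commute.all _ _

lemma cloG0_X : cloG0 p f X = Ideal.Quotient.mk _ (yy p f) := by
  simp [cloG0]

/-- to the closed subscheme -/
noncomputable def cloG : Ef p f →ₐ[D] (AS p (yf f) ⧸ Ideal.span {s₁ p f, s₂ p f}) :=
  AdjoinRoot.liftAlgHom _ (cloG0 p f) (Ideal.Quotient.mk _ (rt p (yf f))) (by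
    rw [eval₂_sub, eval₂_X_pow, eval₂_one, ← map_pow, ← map_one (Ideal.Quotient.mk _), ← map_sub]
    exact Ideal.Quotient.eq_zero_iff_mem.2 (Ideal.subset_span (by simp [s₁])))

lemma cloG_ey : cloG p f (ey p f) = Ideal.Quotient.mk _ (yy p f) := by
  rw [← cloG0_X]
  exact AdjoinRoot.liftAlgHom_of _ _ _ _ _

lemma cloG_et : cloG p f (et p f) = Ideal.Quotient.mk _ (rt p (yf f)) :=
  AdjoinRoot.liftAlgHom_root _ _ _ _

/-- the closed complement of the chart -/
noncomputable def cloE (hp : 2 ≤ p) :
    (AS p (yf f) ⧸ Ideal.span {s₁ p f, s₂ p f}) ≃ₐ[D] Ef p f :=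
  AlgEquiv.ofAlgHom (cloF p f hp) (cloG p f)
    (by
      apply AlgHom.coe_ringHom_injective
      apply Ideal.Quotient.ringHom_ext
      apply Polynomial.ringHom_ext
      · intro q
        change cloF p f hp (cloG p f (algebraMap (Gf f) (Ef p f) q)) = algebraMap (Gf f) (Ef p f) q
        have h1 : ((cloF p f hp).comp (cloG p f)).comp
            (IsScalarTower.toAlgHom D (Gf f) (Ef p f)) =
            IsScalarTower.toAlgHom D (Gf f) (Ef p f) := by
          apply AlgHom.coe_ringHom_injective
          apply Polynomial.ringHom_ext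
          · intro c
            obtain ⟨c, rfl⟩ := Ideal.Quotient.mk_surjective c
            have h2 : (C (Ideal.Quotient.mk (Ideal.span {f}) c) : Gf f) =
              algebraMap D (Gf f) c := rfl
            rw [h2]
            change ((cloF p f hp).comp (cloG p f)).comp
              (IsScalarTower.toAlgHom D (Gf f) (Ef p f)) (algebraMap D (Gf f) c) = _
            rw [AlgHom.commutes]
            rfl
          · change cloF p f hp (cloG p f (ey p f)) = ey p f
            rw [cloG_ey, cloF_mk, resE_yy]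
        exact congrArg (fun u : Gf f →ₐ[D] Ef p f => u q) h1
      · change cloF p f hp (cloG p f (et p f)) = et p f
        rw [cloG_et, cloF_mk, resE_rt])
    (by
      apply AlgHom.coe_ringHom_injective
      apply Ideal.Quotient.ringHom_ext
      have h1 : ((cloG p f).comp (cloF p f hp)).comp
          (Ideal.Quotient.mkₐ D (Ideal.span {s₁ p f, s₂ p f})) =
          Ideal.Quotient.mkₐ D (Ideal.span {s₁ p f, s₂ p f}) := by
        apply as_ext
        · intro q
          have h2 : (((cloG p f).comp (cloF p f hp)).comp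
              (Ideal.Quotient.mkₐ D (Ideal.span {s₁ p f, s₂ p f}))).comp
              (IsScalarTower.toAlgHom D D[X] (AS p (yf f))) =
              (Ideal.Quotient.mkₐ D (Ideal.span {s₁ p f, s₂ p f})).comp
              (IsScalarTower.toAlgHom D D[X] (AS p (yf f))) := by
            apply Polynomial.algHom_ext
            change cloG p f (cloF p f hp (Ideal.Quotient.mk _ (yy p f))) =
              Ideal.Quotient.mk _ (yy p f)
            rw [cloF_mk, resE_yy, cloG_ey]
          exact congrArg (fun u : D[X] →ₐ[D] _ => u q) h2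
        · change cloG p f (cloF p f hp (Ideal.Quotient.mk _ (rt p (yf f)))) =
            Ideal.Quotient.mk _ (rt p (yf f))
          rw [cloF_mk, resE_rt, cloG_et]
      exact RingHom.ext fun a => DFunLike.congr_fun h1 a)

end clo

lemma adjoin_congr {k A : Type} [CommRing k] [CommRing A] [Algebra k A] {f g : A[X]} (h : f = g) :
    Nonempty (AdjoinRoot f ≃ₐ[k] AdjoinRoot g) := by
  subst h
  exact ⟨AlgEquiv.refl⟩

section main

variable {k : Type} [Field k] (p : ℕ) [Fact p.Prime] [CharP k p] {sep : Prop} {P : Sch k → Prop}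
  (hP : Cls sep P) {D : Type} [CommRing D] [Algebra k D] [Algebra.FiniteType k D] (f : D)

include hP

/-- The Artin–Schreier cover `t ^ p - t = y f` has the property `P`, if and only if the product of
`f = 0` with the affine line has it. -/
theorem as_iff (hadd : ∀ (A B : Type) [CommRing A] [Algebra k A] [Algebra.FiniteType k A]
    [CommRing B] [Algebra k B] [Algebra.FiniteType k B], P (aff k (A × B)) → P (aff k A))
    (hD : P (aff k D[X])) : P (aff k (AS p (yf f))) ↔ P (aff k (D ⧸ Ideal.span {f})[X]) := by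
  have hp : 2 ≤ p := (Fact.out : p.Prime).two_le
  -- the triple
  have ht := triple_two (R := k) (φ := (chart p f hp).restrictScalars k) (s₁ := s₁ p f)
    (s₂ := s₂ p f) (chart_unit p f hp) (loc₁ p f hp) (loc₂ p f hp)
    (Ideal.Quotient.mkₐ k (Ideal.span {s₁ p f, s₂ p f})) (Ideal.Quotient.mkₐ_surjective _ _)
    (Ideal.Quotient.mkₐ_ker k _)
  -- the closed complement
  have hpoly : (X ^ (p - 1) - 1 : (Gf f)[X]) =
      ∏ a ∈ unts k p, (X - C (algebraMap k (Gf f) a)) := by
    have h1 := congrArg (Polynomial.map (algebraMap k (Gf f))) (prod_unts k p)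
    rw [Polynomial.map_sub, Polynomial.map_pow, Polynomial.map_one, map_X,
      Polynomial.map_prod] at h1
    rw [h1]
    refine Finset.prod_congr rfl fun a _ => ?_
    rw [Polynomial.map_sub, map_X, map_C]
  have hE : Nonempty ((AS p (yf f) ⧸ Ideal.span {s₁ p f, s₂ p f}) ≃ₐ[k] Spl (Gf f) (unts k p)) := by
    obtain ⟨e⟩ := adjoin_congr (k := k) hpoly
    exact ⟨((cloE p f hp).restrictScalars k).trans e⟩
  obtain ⟨e⟩ := hE
  have hft : Algebra.FiniteType k (Gf f) := inferInstance
  have := ft_spl (k := k) (G := Gf f) (unts k p)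
  constructor
  · intro h
    have h2 := hP.closed _ _ (ft_aff sep) ht h hD
    exact p_of_spl hP hadd (unts k p) (unts_nonempty k p) (iso_alg hP e h2)
  · intro h
    have h2 := iso_alg hP e.symm (p_spl hP (unts k p) h)
    exact hP.total _ _ (ft_aff sep) ht h2 hD

end main

end Pool.Agent.Helper62.EC
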