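import Pool.Agent.Helper62.EC.Cover

/-!
# The product of a finite étale cover of an affine space with the torus
-/

set_option autoImplicit false

open Polynomial

namespace Pool.Agent.Helper62.EC

section poly

variable {k R : Type} [CommRing k] [CommRing R] [Algebra k R] (F : R[X])

/-- the polynomial over `R[y]` -/
noncomputable abbrev Fy : R[X][X] := F.map C

/-- to the polynomial ring -/
noncomputable def pyF : AdjoinRoot (Fy F) →ₐ[R] (AdjoinRoot F)[X] :=
  AdjoinRoot.liftAlgHom (Fy F) (eval₂AlgHom (Algebra.ofId R (AdjoinRoot F)[X]) X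
    fun _ => Commute.all _ _) (C (AdjoinRoot.root F)) (by
    change (F.map C).eval₂ _ _ = 0
    rw [eval₂_map]
    have h1 : (((eval₂AlgHom (Algebra.ofId R (AdjoinRoot F)[X]) X
      fun _ => Commute.all _ _ : R[X] →ₐ[R] (AdjoinRoot F)[X]) : R[X] →+* (AdjoinRoot F)[X]).comp
      (C : R →+* R[X])) = (C : AdjoinRoot F →+* (AdjoinRoot F)[X]).comp (AdjoinRoot.of F) := by
      apply RingHom.ext
      intro a
      change (eval₂AlgHom (Algebra.ofId R (AdjoinRoot F)[X]) X
        fun _ => Commute.all _ _ : R[X] →ₐ[R] (AdjoinRoot F)[X]) (algebraMap R R[X] a) = _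
      rw [AlgHom.commutes]
      rfl
    have h2 : F.eval₂ ((C : AdjoinRoot F →+* (AdjoinRoot F)[X]).comp (AdjoinRoot.of F))
      (C (AdjoinRoot.root F)) = C (F.eval₂ (AdjoinRoot.of F) (AdjoinRoot.root F)) :=
      (hom_eval₂ _ _ _ _).symm
    rw [AdjoinRoot.eval₂_root, C_0] at h2
    rw [← h2]
    congr 1)

/-- from the polynomial ring -/
noncomputable def pyG : (AdjoinRoot F)[X] →ₐ[R] AdjoinRoot (Fy F) :=
  eval₂AlgHom (AdjoinRoot.liftAlgHom F (Algebra.ofId R _) (AdjoinRoot.root (Fy F)) (by
    have h1 : (Fy F).eval₂ (AdjoinRoot.of (Fy F)) (AdjoinRoot.root (Fy F)) = 0 :=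
      AdjoinRoot.eval₂_root _
    change (F.map C).eval₂ _ _ = 0 at h1
    rw [eval₂_map] at h1
    exact h1)) (algebraMap R[X] _ X) fun _ => Commute.all _ _

/-- polynomials over the algebra -/
noncomputable def pyE : AdjoinRoot (Fy F) ≃ₐ[R] (AdjoinRoot F)[X] :=
  AlgEquiv.ofAlgHom (pyF F) (pyG F)
    (by
      apply AlgHom.coe_ringHom_injective
      apply Polynomial.ringHom_ext'
      · apply Ideal.Quotient.ringHom_ext
        apply Polynomial.ringHom_ext'
        · apply RingHom.ext
          intro a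
          change ((pyF F).comp (pyG F)) (algebraMap R _ a) = algebraMap R _ a
          rw [AlgHom.commutes]
        · change pyF F (pyG F (C (AdjoinRoot.root F))) = C (AdjoinRoot.root F)
          have h1 : pyG F (C (AdjoinRoot.root F)) = AdjoinRoot.root (Fy F) := by simp [pyG]
          rw [h1]
          exact AdjoinRoot.liftAlgHom_root _ _ _ _
      · change pyF F (pyG F X) = X
        have h1 : pyG F X = algebraMap R[X] _ X := by simp [pyG]
        rw [h1]
        refine (AdjoinRoot.liftAlgHom_of _ _ _ _ _).trans ?_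
        simp)
    (by
      apply AlgHom.coe_ringHom_injective
      apply Ideal.Quotient.ringHom_ext
      apply Polynomial.ringHom_ext'
      · apply Polynomial.ringHom_ext'
        · apply RingHom.ext
          intro a
          change ((pyG F).comp (pyF F)) (algebraMap R _ a) = algebraMap R _ a
          rw [AlgHom.commutes]
        · change pyG F (pyF F (AdjoinRoot.of (Fy F) X)) = AdjoinRoot.of (Fy F) X
          have h1 : pyF F (AdjoinRoot.of (Fy F) X) = X := by
            refine (AdjoinRoot.liftAlgHom_of _ _ _ _ _).trans ?_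
            simp
          rw [h1]
          simp [pyG]
      · change pyG F (pyF F (AdjoinRoot.root (Fy F))) = AdjoinRoot.root (Fy F)
        have h1 : pyF F (AdjoinRoot.root (Fy F)) = C (AdjoinRoot.root F) :=
          AdjoinRoot.liftAlgHom_root _ _ _ _
        rw [h1]
        simp [pyG])

lemma pyE_y : pyE F (algebraMap R[X] _ X) = X := by
  change pyF F (AdjoinRoot.of (Fy F) X) = X
  refine (AdjoinRoot.liftAlgHom_of _ _ _ _ _).trans ?_
  simp

end poly

section laurent

/-- Laurent polynomials are a localization. -/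
theorem loc_laurent {k A₁ A₂ : Type} [CommRing k] [CommRing A₁] [CommRing A₂] [Algebra k A₁]
    [Algebra k A₂] (e : A₁ ≃ₐ[k] A₂[X]) (y : A₁) (h : e y = X) :
    Nonempty (Localization.Away y ≃ₐ[k] LaurentPolynomial A₂) := by
  have hl : IsLocalization.Away (X : A₂[X]) (LaurentPolynomial A₂) :=
    LaurentPolynomial.isLocalization
  have h1 : (Submonoid.powers y).map (e.toRingEquiv : A₁ ≃+* A₂[X]).toMonoidHom =
      Submonoid.powers (X : A₂[X]) := by
    rw [Submonoid.map_powers]
    congr 1
  let e2 : Localization.Away y ≃+* LaurentPolynomial A₂ :=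
    IsLocalization.ringEquivOfRingEquiv (M := Submonoid.powers y) (T := Submonoid.powers (X : A₂[X]))
      (Localization.Away y) (LaurentPolynomial A₂) e.toRingEquiv h1
  refine ⟨AlgEquiv.ofRingEquiv (f := e2) fun r => ?_⟩
  have h2 : algebraMap k (Localization.Away y) r = algebraMap A₁ _ (algebraMap k A₁ r) :=
    IsScalarTower.algebraMap_apply _ _ _ _
  rw [h2]
  change IsLocalization.ringEquivOfRingEquiv _ _ _ _ _ = _
  rw [IsLocalization.ringEquivOfRingEquiv_eq]
  change algebraMap A₂[X] (LaurentPolynomial A₂) (e (algebraMap k A₁ r)) = _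
  rw [AlgEquiv.commutes]
  have h3 : algebraMap k A₂[X] r = C (algebraMap k A₂ r) := rfl
  rw [h3, LaurentPolynomial.algebraMap_apply, LaurentPolynomial.algebraMap_eq_toLaurent,
    Polynomial.toLaurent_C]

/-- The product of a finite étale cover of an affine space with the torus is a finite étale cover of
an affine space. -/
theorem exists_torus {k : Type} [Field k] (p : ℕ) [CharP k p] (hp : p ≠ 0) {m : ℕ}
    (F : (MvPolynomial (Fin m) k)[X]) (hF : F.Monic) (hc : IsCoprime F (derivative F)) :
    ∃ F' : (MvPolynomial (Fin (m + 1)) k)[X], F'.Monic ∧ IsCoprime F' (derivative F') ∧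
      Nonempty (AdjoinRoot F' ≃ₐ[k] LaurentPolynomial (AdjoinRoot F)) := by
  let R := MvPolynomial (Fin m) k
  let R' := MvPolynomial (Fin (m + 1)) k
  let ε : R' ≃ₐ[k] R[X] := MvPolynomial.finSuccEquiv k m
  let j : R →+* R' := (ε.symm : R[X] →+* R').comp C
  let F₁ : R'[X] := F.map j
  obtain ⟨u, v, huv⟩ := hc
  have huv1 : u.map j * F₁ + v.map j * derivative F₁ = C 1 := by
    rw [derivative_map, ← Polynomial.map_mul, ← Polynomial.map_mul, ← Polynomial.map_add, huv,
      Polynomial.map_one, C_1]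
  obtain ⟨F', hF', hc', ⟨E⟩⟩ := exists_monic p hp F₁ (MvPolynomial.X 0) (hF.map j) huv1
    (one_dvd _)
  refine ⟨F', hF', hc', ?_⟩
  -- change of the base
  let ε1 : R'[X] ≃ₐ[k] R[X][X] := Polynomial.mapAlgEquiv ε
  have hε1 : ε1 F₁ = Fy F := by
    change (F.map j).map (ε : R' →+* R[X]) = F.map C
    rw [Polynomial.map_map]
    congr 1
    apply RingHom.ext
    intro a
    change ε (ε.symm (C a)) = C a
    exact ε.apply_symm_apply _
  let E1 : AdjoinRoot F₁ ≃ₐ[k] AdjoinRoot (Fy F) := Ideal.quotientEquivAlg _ _ ε1 (by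
    rw [Ideal.map_span, Set.image_singleton]
    change Ideal.span {Fy F} = Ideal.span {ε1 F₁}
    rw [hε1])
  let E2 : AdjoinRoot F₁ ≃ₐ[k] (AdjoinRoot F)[X] := E1.trans ((pyE F).restrictScalars k)
  have hE2 : E2 (algebraMap R' (AdjoinRoot F₁) (MvPolynomial.X 0)) = X := by
    have h1 : E1 (algebraMap R' (AdjoinRoot F₁) (MvPolynomial.X 0)) = algebraMap R[X] _ X := by
      change AdjoinRoot.mk (Fy F) (ε1 (C (MvPolynomial.X 0))) = AdjoinRoot.mk (Fy F) (C X)
      congr 1
      change (C (MvPolynomial.X 0) : R'[X]).map (ε : R' →+* R[X]) = C X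
      rw [map_C]
      congr 1
      exact MvPolynomial.finSuccEquiv_X_zero
    have h2 : E2 (algebraMap R' (AdjoinRoot F₁) (MvPolynomial.X 0)) =
      pyE F (E1 (algebraMap R' (AdjoinRoot F₁) (MvPolynomial.X 0))) := rfl
    rw [h2, h1, pyE_y]
  obtain ⟨E3⟩ := loc_laurent E2 _ hE2
  exact ⟨E.symm.trans E3⟩

lemma prime_iff_dom {R : Type} [CommRing R] [IsDomain R] {F : R[X]} (h0 : F ≠ 0) :
    Prime F ↔ IsDomain (AdjoinRoot F) := by
  rw [← Ideal.span_singleton_prime h0]
  exact (Ideal.Quotient.isDomain_iff_prime _).symm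

/-- The product of a connected finite étale cover of an affine space with the torus is a connected
finite étale cover of an affine space. -/
theorem exists_torus' {k : Type} [Field k] (p : ℕ) [CharP k p] (hp : p ≠ 0) {m : ℕ}
    (F : (MvPolynomial (Fin m) k)[X]) (hF : F.Monic) (hc : IsCoprime F (derivative F))
    (hi : Irreducible F) :
    ∃ F' : (MvPolynomial (Fin (m + 1)) k)[X], F'.Monic ∧ IsCoprime F' (derivative F') ∧
      Irreducible F' ∧ Nonempty (AdjoinRoot F' ≃ₐ[k] LaurentPolynomial (AdjoinRoot F)) := by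
  obtain ⟨F', h1, h2, ⟨e⟩⟩ := exists_torus p hp F hF hc
  have hd : IsDomain (AdjoinRoot F) := (prime_iff_dom hF.ne_zero).1 hi.prime
  have hl : IsLocalization.Away (X : (AdjoinRoot F)[X]) (LaurentPolynomial (AdjoinRoot F)) :=
    LaurentPolynomial.isLocalization
  have hd2 : IsDomain (LaurentPolynomial (AdjoinRoot F)) :=
    IsLocalization.isDomain_of_le_nonZeroDivisors (M := Submonoid.powers (X : (AdjoinRoot F)[X])) _
      (powers_le_nonZeroDivisors_of_noZeroDivisors X_ne_zero)
  have hd3 : IsDomain (AdjoinRoot F') := e.toMulEquiv.isDomain _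
  exact ⟨F', h1, h2, ((prime_iff_dom h1.ne_zero).2 hd3).irreducible, ⟨e⟩⟩

end laurent

end Pool.Agent.Helper62.EC
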