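import Pool.Agent.Helper62.EC.Torus
import Pool.Agent.Helper62.EC.Cls

/-!
# Schemes of dimension at most `n` and finite étale covers of affine spaces
-/

set_option autoImplicit false

open CategoryTheory AlgebraicGeometry Polynomial Pool.Agent.Y116.UV

namespace Pool.Agent.Helper62.EC

section dim

variable {k : Type} [Field k]

lemma dim_hyp {m : ℕ} (F : (MvPolynomial (Fin m) k)[X]) (hF : F ≠ 0) :
    ringKrullDim ((MvPolynomial (Fin m) k)[X] ⧸ Ideal.span {F}) ≤ m := by
  have h1 : ringKrullDim ((MvPolynomial (Fin m) k)[X] ⧸ Ideal.span {F}) + 1 ≤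
      ringKrullDim (MvPolynomial (Fin m) k)[X] :=
    ringKrullDim_quotient_succ_le_of_nonZeroDivisor (mem_nonZeroDivisors_of_ne_zero hF)
  rw [Polynomial.ringKrullDim_of_isNoetherianRing, MvPolynomial.ringKrullDim_of_isNoetherianRing,
    ringKrullDim_eq_zero_of_field, zero_add, Nat.card_eq_fintype_card, Fintype.card_fin] at h1
  have h3 : ((m : ℕ) : WithBot ℕ∞) + 1 = ((m + 1 : ℕ) : WithBot ℕ∞) := by push_cast; rfl
  rw [h3, ENat.WithBot.add_one_le_natCast_iff, ← h3] at h1
  exact ENat.WithBot.lt_add_one_iff.mp h1

end dim

section

variable {k : Type} [Field k] {sep : Prop} {P : Sch k → Prop} (hP : Cls sep P)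

include hP

/-- From affine schemes of dimension at most `n` to all schemes of dimension at most `n`. -/
lemma of_affine_dim {n : ℕ} (h : ∀ (A : Type) [CommRing A] [Algebra k A]
    [Algebra.FiniteType k A], ringKrullDim A ≤ n → P (aff k A)) (X : Sch k) (hX : FT sep X)
    (hn : topologicalKrullDim X.left ≤ n) : P X := by
  refine of_affine' (P := fun X => topologicalKrullDim X.left ≤ n → P X) (sep := sep) ?_ ?_ ?_ X
    hX hn
  · intro X Y hX e hPX hY
    refine hP.iso hX e (hPX ?_)
    obtain ⟨e⟩ := e
    let f := (Over.forget _).mapIso e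
    exact (Topology.IsInducing.topologicalKrullDim_le
      (Scheme.homeoOfIso f).isInducing).trans hY
  · intro Z X U i j hX ht hZ hU hn
    refine hP.total i j hX ht (hZ ?_) (hU ?_)
    · have h1 := (have := ht.closed; i.left.isClosedEmbedding.isInducing)
      exact h1.topologicalKrullDim_le.trans hn
    · have h1 := (have := ht.opened; j.left.isOpenEmbedding.isInducing)
      exact h1.topologicalKrullDim_le.trans hn
  · intro A _ _ _ hA
    rw [Pool.Agent.Z125.UN.topDim_aff] at hA
    exact h A hA

/-- **The finite étale covers of affine spaces.** A property of schemes which is closed under closed-open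
decompositions is true for all schemes of dimension at most `n` if it is true for the finite étale
covers of the affine spaces of dimension at most `n`. -/
theorem dim_cover [PerfectField k] (p : ℕ) [CharP k p] (hp : p ≠ 0) (n : ℕ) :
    (∀ X : Sch k, FT sep X → topologicalKrullDim X.left ≤ n → P X) ↔
      ∀ (m : ℕ) (F : (MvPolynomial (Fin m) k)[X]), m ≤ n → F.Monic → IsCoprime F (derivative F) →
        Irreducible F → P (aff k (AdjoinRoot F)) := by
  constructor
  · intro h m F hm hF _ _
    refine h _ (ft_aff sep (h := Algebra.FiniteType.trans (S := MvPolynomial (Fin m) k)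
      inferInstance inferInstance)) ?_
    rw [Pool.Agent.Z125.UN.topDim_aff]
    exact (dim_hyp F hF.ne_zero).trans (by exact_mod_cast hm)
  · intro h
    refine of_affine_dim hP fun A _ _ _ hA => ?_
    refine noeth hP (fun B _ _ hB => ?_) fun q hq => ?_
    · have h0 := h 0 X (Nat.zero_le _) monic_X (by rw [derivative_X]; exact isCoprime_one_right)
        irreducible_X
      have : Algebra.FiniteType k (AdjoinRoot (X : (MvPolynomial (Fin 0) k)[X])) :=
        Algebra.FiniteType.trans (S := MvPolynomial (Fin 0) k) inferInstance inferInstance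
      exact p_empty hP h0 B hB
    · obtain ⟨w, hw, r, F, hr, hF, hc, hi, ⟨e⟩⟩ := exists_cover k p hp (A ⧸ q) n
        ((ringKrullDim_quotient_le q).trans hA)
      have : Algebra.FiniteType k (AdjoinRoot F) :=
        Algebra.FiniteType.trans (S := MvPolynomial (Fin r) k) inferInstance inferInstance
      exact ⟨w, hw, iso_alg hP e.symm (h r F hr hF hc hi)⟩

/-- The finite étale covers of the affine space of dimension `n` are sufficient, for a property which
descends from `X × 𝔾_m` to `X`. -/
theorem dim_cover_eq [PerfectField k] (p : ℕ) [CharP k p] (hp : p ≠ 0)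
    (htor : ∀ (A : Type) [CommRing A] [Algebra k A] [Algebra.FiniteType k A],
      P (aff k (LaurentPolynomial A)) → P (aff k A)) (n : ℕ) :
    (∀ X : Sch k, FT sep X → topologicalKrullDim X.left ≤ n → P X) ↔
      ∀ F : (MvPolynomial (Fin n) k)[X], F.Monic → IsCoprime F (derivative F) →
        Irreducible F → P (aff k (AdjoinRoot F)) := by
  rw [dim_cover hP p hp n]
  constructor
  · intro h F
    exact h n F le_rfl
  · intro h
    have key : ∀ (j m : ℕ), m + j = n → ∀ F : (MvPolynomial (Fin m) k)[X], F.Monic →
        IsCoprime F (derivative F) → Irreducible F → P (aff k (AdjoinRoot F)) := by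
      intro j
      induction j with
      | zero =>
        intro m hm F
        rw [add_zero] at hm
        subst hm
        exact h F
      | succ j ih =>
        intro m hm F hF hc hi
        obtain ⟨F', h1, h2, h3, ⟨e⟩⟩ := exists_torus' p hp F hF hc hi
        have h4 := ih (m + 1) (by omega) F' h1 h2 h3
        have : Algebra.FiniteType k (AdjoinRoot F) :=
          Algebra.FiniteType.trans (S := MvPolynomial (Fin m) k) inferInstance inferInstance
        have : Algebra.FiniteType k (AdjoinRoot F') :=
          Algebra.FiniteType.trans (S := MvPolynomial (Fin (m + 1)) k) inferInstance inferInstance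
        exact htor _ (iso_alg hP e h4)
    intro m F hm
    obtain ⟨j, hj⟩ := Nat.exists_eq_add_of_le hm
    exact key j m hj.symm F

/-- The finite étale covers of affine spaces decide a property of schemes which is closed under
closed-open decompositions. -/
theorem all_cover [PerfectField k] (p : ℕ) [CharP k p] (hp : p ≠ 0) :
    (∀ X : Sch k, FT sep X → P X) ↔
      ∀ (m : ℕ) (F : (MvPolynomial (Fin m) k)[X]), F.Monic → IsCoprime F (derivative F) →
        Irreducible F → P (aff k (AdjoinRoot F)) := by
  constructor
  · intro h m F _ _ _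
    exact h _ (ft_aff sep (h := Algebra.FiniteType.trans (S := MvPolynomial (Fin m) k)
      inferInstance inferInstance))
  · intro h
    refine of_affine' hP.iso hP.total fun A _ _ _ => ?_
    obtain ⟨N, φ, hφ⟩ := Algebra.FiniteType.iff_quotient_mvPolynomial''.1
      (inferInstance : Algebra.FiniteType k A)
    have hA : ringKrullDim A ≤ N := by
      refine (ringKrullDim_le_of_surjective φ.toRingHom hφ).trans ?_
      rw [MvPolynomial.ringKrullDim_of_isNoetherianRing, ringKrullDim_eq_zero_of_field, zero_add,
        Nat.card_eq_fintype_card, Fintype.card_fin]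
    have h2 := (dim_cover hP p hp N).2 (fun m F _ => h m F) (aff k A) (ft_aff sep)
    rw [Pool.Agent.Z125.UN.topDim_aff] at h2
    exact h2 hA

end

end Pool.Agent.Helper62.EC
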