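import Pool.Agent.Helper62.EC.Tri
import Pool.Agent.Helper62.EC.Dim

/-!
# Families of Artin–Schreier covers of affine spaces
-/

set_option autoImplicit false

open CategoryTheory AlgebraicGeometry Pool.Agent.Y116.UV

namespace Pool.Agent.Helper62.EC

/-- The Artin–Schreier cover `t ^ p - t = g` of the affine space over `k` with the coordinates `σ`. -/
noncomputable def asS {k : Type} [CommRing k] {σ : Type} (p : ℕ) (g : MvPolynomial σ k) : Sch k :=
  aff k (AS p g)

/-- The cover `F(x_1, …, x_m, t) = 0` of the affine space of dimension `m` over `k`. -/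
noncomputable def covS {k : Type} [CommRing k] {m : ℕ} (F : Polynomial (MvPolynomial (Fin m) k)) :
    Sch k :=
  aff k (AdjoinRoot F)

/-- `F` is irreducible and monic in `t` and its discriminant is a non-zero constant (`F` and its
derivative with respect to `t` generate the unit ideal), so that `covS F` is a connected finite étale
cover of the affine space of dimension `m`. -/
structure IsCover {k : Type} [CommRing k] {m : ℕ} (F : Polynomial (MvPolynomial (Fin m) k)) :
    Prop where
  monic : F.Monic
  coprime : IsCoprime F (Polynomial.derivative F)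
  irreducible : Irreducible F

section vars

open MvPolynomial

variable (k : Type) [CommRing k] (a b c : ℕ)

/-- polynomials in `x, y, z` as polynomials in `z` -/
noncomputable def triE : MvPolynomial (Fin a ⊕ (Fin b ⊕ Fin c)) k ≃ₐ[k]
    MvPolynomial (Fin c) (MvPolynomial (Fin a ⊕ Fin b) k) :=
  (renameEquiv k ((Equiv.sumAssoc (Fin a) (Fin b) (Fin c)).symm.trans
    (Equiv.sumComm (Fin a ⊕ Fin b) (Fin c)))).trans (sumAlgEquiv k (Fin c) (Fin a ⊕ Fin b))

lemma triE_C (r : k) : triE k a b c (C r) = C (C r) := by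
  simp [triE]

lemma triE_x (i : Fin a) : triE k a b c (X (Sum.inl i)) = C (X (Sum.inl i)) := by
  simp [triE]

lemma triE_y (j : Fin b) : triE k a b c (X (Sum.inr (Sum.inl j))) = C (X (Sum.inr j)) := by
  simp [triE]

lemma triE_z (l : Fin c) : triE k a b c (X (Sum.inr (Sum.inr l))) = X l := by
  simp [triE]

variable {k a b c}

lemma triE_tri (t : Fin a → Fin b → Fin c → k) :
    triE k a b c (tri t) = lform (Pool.Agent.Q282.UK.bform t) := by
  rw [tri, lform]
  simp only [map_sum, map_mul, triE_C, triE_x, triE_y, triE_z, Pool.Agent.Q282.UK.bform,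
    Finset.mul_sum]
  rw [Finset.sum_congr rfl fun i _ => Finset.sum_comm, Finset.sum_comm]
  refine Finset.sum_congr rfl fun l _ => Finset.sum_congr rfl fun i _ =>
    Finset.sum_congr rfl fun j _ => ?_
  ring

/-- the trilinear form `∑ x_i y_j z_l`, the sum over all `l` and all `(i, j)` in `E l` -/
noncomputable def sparse (k : Type) [CommRing k] {a b c : ℕ} (E : Fin c → Finset (Fin a × Fin b)) :
    MvPolynomial (Fin a ⊕ (Fin b ⊕ Fin c)) k :=
  ∑ l, ∑ e ∈ E l, X (Sum.inl e.1) * X (Sum.inr (Sum.inl e.2)) * X (Sum.inr (Sum.inr l))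

lemma triE_sparse (E : Fin c → Finset (Fin a × Fin b)) :
    triE k a b c (sparse k E) = lform fun l => Pool.Agent.Q282.UZ.few k (E l) := by
  rw [sparse, lform]
  simp only [map_sum, map_mul, triE_x, triE_y, triE_z, Pool.Agent.Q282.UZ.few, Finset.mul_sum]
  refine Finset.sum_congr rfl fun l _ => Finset.sum_congr rfl fun e _ => ?_
  ring

end vars

section fam

variable {k : Type} [Field k] (p : ℕ) [Fact p.Prime] [CharP k p] {sep : Prop} {P : Sch k → Prop}
  (hP : Cls sep P)

include hP in
/-- `t ^ p - t = 0` -/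
lemma p_as_zero {G : Type} [CommRing G] [Algebra k G] [Algebra.FiniteType k G] (h : P (aff k G)) :
    P (aff k (AS p (0 : G))) := by
  classical
  have hp : 2 ≤ p := (Fact.out : p.Prime).two_le
  have h0 : (0 : k) ∉ unts k p := by
    rw [unts, Finset.mem_image]
    rintro ⟨a, ha, h1⟩
    rw [map_eq_zero] at h1
    exact (Finset.mem_erase.1 ha).1 h1
  have hpoly : asp p (0 : G) = ∏ a ∈ insert 0 (unts k p),
      (Polynomial.X - Polynomial.C (algebraMap k G a)) := by
    have h1 := congrArg (Polynomial.map (algebraMap k G)) (prod_unts k p)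
    rw [Polynomial.map_sub, Polynomial.map_pow, Polynomial.map_one, Polynomial.map_X,
      Polynomial.map_prod] at h1
    have h2 : ∏ a ∈ unts k p, (Polynomial.X - Polynomial.C (algebraMap k G a)) =
        (Polynomial.X ^ (p - 1) - 1 : Polynomial G) := by
      rw [h1]
      refine Finset.prod_congr rfl fun a _ => ?_
      rw [Polynomial.map_sub, Polynomial.map_X, Polynomial.map_C]
    rw [Finset.prod_insert h0, h2, map_zero, Polynomial.C_0, sub_zero, asp, Polynomial.C_0, sub_zero,
      pow_split p hp]
  obtain ⟨e⟩ := adjoin_congr (k := k) hpoly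
  have := ft_spl (k := k) (G := G) (insert 0 (unts k p))
  exact iso_alg hP e.symm (p_spl hP _ h)

/-- isomorphic base rings -/
lemma as_e (hP : Cls sep P) {A₁ A₂ : Type} [CommRing A₁] [CommRing A₂] [Algebra k A₁] [Algebra k A₂]
    [Algebra.FiniteType k A₁] [Algebra.FiniteType k A₂] (e : A₁ ≃ₐ[k] A₂) {g₁ : A₁} {g₂ : A₂}
    (h : e g₁ = g₂) : P (aff k (AS p g₁)) ↔ P (aff k (AS p g₂)) := by
  obtain ⟨E⟩ := as_congr p e h
  exact ⟨iso_alg hP E, iso_alg hP E.symm⟩

end fam

section graded

variable {k : Type} [Field k] (p : ℕ) [Fact p.Prime] [CharP k p] {sep : Prop}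
  {P : ℤ → Sch k → Prop} (hP : Fam sep P)

include hP

/-- Systems of equations `f_l = 0` from a set `S` of functions, and the Artin–Schreier algebras
`t ^ p - t = ∑ y_l f_l`. -/
theorem fam_iff (n : ℤ) {A : Type} [CommRing A] [Algebra k A] [Algebra.FiniteType k A]
    (hA : P n (aff k A)) (S : Set A) (m : ℕ) :
    (∀ c ≤ m, ∀ f : Fin c → A, (∀ l, f l ∈ S) → P n (aff k (A ⧸ Ideal.span (Set.range f)))) ↔
      ∀ c ≤ m, ∀ f : Fin c → A, (∀ l, f l ∈ S) → P (n + c) (aff k (AS p (lform f))) := by
  -- truncations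
  have htr : ∀ (c j : ℕ) (f : Fin c → A) (hj : j ≤ c),
      f '' {i | i.val < j} = Set.range (fun i : Fin j => f (Fin.castLE hj i)) := by
    intro c j f hj
    ext x
    constructor
    · rintro ⟨i, hi, rfl⟩
      exact ⟨⟨i.val, hi⟩, rfl⟩
    · rintro ⟨i, rfl⟩
      exact ⟨Fin.castLE hj i, i.2, rfl⟩
  constructor
  · intro h c
    match c with
    | 0 =>
      intro _ f _
      have h0 : lform f = 0 := by
        rw [lform]
        exact Finset.sum_of_isEmpty _
      rw [h0]
      exact p_as_zero p (hP.cls _) (p_mv hP 0 hA)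
    | c + 1 =>
      intro hc f hf
      refine (tri_iff p hP n c A f fun j hj => ?_).2 (h (c + 1) hc f hf)
      rw [htr _ j f (by omega)]
      exact h j (by omega) _ fun l => hf _
  · intro h c
    induction c using Nat.strong_induction_on with
    | _ c ih =>
      match c, ih with
      | 0, _ =>
        intro _ f _
        have h0 : Ideal.span (Set.range f) = ⊥ := by
          rw [Set.range_eq_empty, Ideal.span_empty]
        rw [h0]
        exact iso_alg (hP.cls n) (AlgEquiv.quotientBot k A).symm hA
      | c + 1, ih =>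
        intro hc f hf
        refine (tri_iff p hP n c A f fun j hj => ?_).1 (h (c + 1) hc f hf)
        rw [htr _ j f (by omega)]
        exact ih j (by omega) (by omega) _ fun l => hf _

/-- affine spaces -/
lemma p_space (hk : ∀ n, P n (aff k k)) (m : ℕ) (n : ℤ) :
    P n (aff k (MvPolynomial (Fin m) k)) := by
  have h := p_mv hP m (hk (n - m))
  rw [sub_add_cancel] at h
  exact h

/-- Systems of at most `m` bilinear equations and the Artin–Schreier covers defined by trilinear forms
with at most `m` variables in the third block. -/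
theorem bil_as (hk : ∀ n, P n (aff k k)) (n : ℤ) (m : ℕ) :
    (∀ (a b c : ℕ) (t : Fin a → Fin b → Fin c → k), c ≤ m → P n (Pool.Agent.Q282.UK.bilS t)) ↔
      ∀ (a b c : ℕ) (t : Fin a → Fin b → Fin c → k), c ≤ m → P (n + c) (asS p (tri t)) := by
  have hmv : ∀ a b : ℕ, P n (aff k (MvPolynomial (Fin a ⊕ Fin b) k)) := by
    intro a b
    exact iso_alg (hP.cls n) (MvPolynomial.renameEquiv k finSumFinEquiv).symm
      (p_space hP hk (a + b) n)
  have h1 : ∀ a b : ℕ, _ := fun a b => fam_iff p hP n (hmv a b)
    {f | ∃ s : Fin a → Fin b → k, f = ∑ i, ∑ j, MvPolynomial.C (s i j) *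
      MvPolynomial.X (Sum.inl i) * MvPolynomial.X (Sum.inr j)} m
  constructor
  · intro h a b c t hc
    refine (as_e p (hP.cls _) (triE k a b c) (triE_tri t)).2 ?_
    refine (h1 a b).1 ?_ c hc _ fun l => ⟨fun i j => t i j l, rfl⟩
    intro c' hc' f hf
    choose s hs using hf
    have h2 : f = Pool.Agent.Q282.UK.bform (fun i j l => s l i j) := funext hs
    rw [h2]
    exact h a b c' _ hc'
  · intro h a b c t hc
    refine (h1 a b).2 ?_ c hc _ fun l => ⟨fun i j => t i j l, rfl⟩
    intro c' hc' f hf
    choose s hs using hf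
    have h2 : f = Pool.Agent.Q282.UK.bform (fun i j l => s l i j) := funext hs
    rw [h2]
    exact (as_e p (hP.cls _) (triE k a b c') (triE_tri _)).1 (h a b c' _ hc')

/-- Systems of bilinear equations with at most three terms and coefficients `1`, and the corresponding
Artin–Schreier covers. -/
theorem few_as (hk : ∀ n, P n (aff k k)) (n : ℤ) :
    Pool.Agent.Q282.UZ.ForThreeTerms (P n) ↔
      ∀ (a b c : ℕ) (E : Fin c → Finset (Fin a × Fin b)), (∀ l, (E l).card ≤ 3) →
        P (n + c) (asS p (sparse k E)) := by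
  have hmv : ∀ a b : ℕ, P n (aff k (MvPolynomial (Fin a ⊕ Fin b) k)) := by
    intro a b
    exact iso_alg (hP.cls n) (MvPolynomial.renameEquiv k finSumFinEquiv).symm
      (p_space hP hk (a + b) n)
  have h1 : ∀ a b m : ℕ, _ := fun a b m => fam_iff p hP n (hmv a b)
    {f | ∃ E : Finset (Fin a × Fin b), E.card ≤ 3 ∧ f = Pool.Agent.Q282.UZ.few k E} m
  constructor
  · intro h a b c E hE
    refine (as_e p (hP.cls _) (triE k a b c) (triE_sparse E)).2 ?_
    refine (h1 a b c).1 ?_ c le_rfl _ fun l => ⟨E l, hE l, rfl⟩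
    intro c' _ f hf
    choose s hs1 hs2 using hf
    have h2 : f = fun l => Pool.Agent.Q282.UZ.few k (s l) := funext hs2
    rw [h2]
    exact h a b c' s hs1
  · intro h a b c E hE
    refine (h1 a b c).2 ?_ c le_rfl _ fun l => ⟨E l, hE l, rfl⟩
    intro c' _ f hf
    choose s hs1 hs2 using hf
    have h2 : f = fun l => Pool.Agent.Q282.UZ.few k (s l) := funext hs2
    rw [h2]
    exact (as_e p (hP.cls _) (triE k a b c') (triE_sparse s)).1 (h a b c' s hs1)

end graded

end Pool.Agent.Helper62.EC
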