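import Pool.Agent.Helper62.EC.Open

/-!
# Artin–Schreier algebras
-/

set_option autoImplicit false

open CategoryTheory AlgebraicGeometry Polynomial Pool.Agent.Y116.UV

namespace Pool.Agent.Helper62.EC

/-- the polynomial `T ^ p - T - g` -/
noncomputable def asp (p : ℕ) {A : Type} [CommRing A] (g : A) : A[X] := X ^ p - X - C g

/-- the algebra `A[T] / (T ^ p - T - g)` -/
abbrev AS (p : ℕ) {A : Type} [CommRing A] (g : A) : Type := AdjoinRoot (asp p g)

section as

variable {k A : Type} [CommRing k] [CommRing A] [Algebra k A] (p : ℕ) (g : A)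

lemma asp_monic (hp : 2 ≤ p) : (asp p g).Monic := by
  have h : asp p g = X ^ p - (X + C g) := by rw [asp]; ring
  rw [h]
  refine monic_X_pow_sub ?_
  refine (degree_add_le _ _).trans_lt ?_
  refine (max_le degree_X_le (degree_C_le.trans zero_le_one)).trans_lt ?_
  exact_mod_cast (by omega : 1 < p)

/-- the root -/
noncomputable def rt : AS p g := AdjoinRoot.root (asp p g)

lemma rt_rel : rt p g ^ p - rt p g = algebraMap A (AS p g) g := by
  have h : (asp p g).eval₂ (AdjoinRoot.of (asp p g)) (AdjoinRoot.root (asp p g)) = 0 :=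
    AdjoinRoot.eval₂_root _
  rw [asp, eval₂_sub, eval₂_sub, eval₂_X_pow, eval₂_X, eval₂_C] at h
  exact sub_eq_zero.1 h

variable {p g}

/-- homomorphisms from the algebra `A[T] / (T ^ p - T - g)` -/
noncomputable def asLift {B : Type} [CommRing B] [Algebra k B] (i : A →ₐ[k] B) (x : B)
    (h : x ^ p - x = i g) : AS p g →ₐ[k] B :=
  AdjoinRoot.liftAlgHom (asp p g) i x (by
    rw [asp, eval₂_sub, eval₂_sub, eval₂_X_pow, eval₂_X, eval₂_C]
    exact sub_eq_zero.2 h)

section

variable {B : Type} [CommRing B] [Algebra k B] (i : A →ₐ[k] B) (x : B) (h : x ^ p - x = i g)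

lemma asLift_rt : asLift i x h (rt p g) = x := by
  rw [asLift, rt]
  exact AdjoinRoot.liftAlgHom_root _ _ _ _

lemma asLift_of (a : A) : asLift i x h (algebraMap A (AS p g) a) = i a := by
  rw [asLift]
  exact AdjoinRoot.liftAlgHom_of _ _ _ _ _

end

lemma as_ext {B : Type} [CommRing B] [Algebra k B] {f₁ f₂ : AS p g →ₐ[k] B}
    (h1 : ∀ a, f₁ (algebraMap A (AS p g) a) = f₂ (algebraMap A (AS p g) a))
    (h2 : f₁ (rt p g) = f₂ (rt p g)) : f₁ = f₂ := by
  apply AlgHom.coe_ringHom_injective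
  apply Ideal.Quotient.ringHom_ext
  apply Polynomial.ringHom_ext
  · exact h1
  · exact h2

lemma as_ind {M : AS p g → Prop} (h1 : ∀ a, M (algebraMap A (AS p g) a)) (h2 : M (rt p g))
    (ha : ∀ x y, M x → M y → M (x + y)) (hm : ∀ x y, M x → M y → M (x * y)) (x : AS p g) : M x := by
  obtain ⟨q, rfl⟩ := AdjoinRoot.mk_surjective x
  induction q using Polynomial.induction_on' with
  | add a b iha ihb =>
    rw [map_add]
    exact ha _ _ iha ihb
  | monomial n a =>
    rw [← C_mul_X_pow_eq_monomial]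
    induction n with
    | zero =>
      rw [pow_zero, mul_one]
      exact h1 a
    | succ n ih =>
      rw [pow_succ, ← mul_assoc, map_mul]
      exact hm _ _ ih h2

end as

section ft

variable {k A : Type} [CommRing k] [CommRing A] [Algebra k A] [Algebra.FiniteType k A] (p : ℕ) (g : A)

instance ft_as : Algebra.FiniteType k (AS p g) :=
  Algebra.FiniteType.trans (S := A) inferInstance inferInstance

end ft

section locIso

variable {D S : Type} [CommRing D] [CommRing S] [Algebra D S] {φ : S →ₐ[D] D[X]} {s : S}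

/-- a criterion -/
lemma locIso_of (ψ : D[X] →ₐ[D] Localization.Away s)
    (h1 : ∀ a, ψ (φ a) = algebraMap S (Localization.Away s) a) (y : S) (n : ℕ)
    (h2 : φ s ^ n * X = φ y) : LocIso (φ : S →+* D[X]) s := by
  constructor
  · intro a ha
    have h3 := h1 a
    change φ a = 0 at ha
    rw [ha, map_zero] at h3
    obtain ⟨⟨_, m, rfl⟩, hc⟩ := (IsLocalization.map_eq_zero_iff (Submonoid.powers s)
      (Localization.Away s) a).1 h3.symm
    exact ⟨m, hc⟩
  · intro b
    change ∃ (n : ℕ) (a : S), φ s ^ n * b = φ a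
    induction b using Polynomial.induction_on' with
    | add b c hb hc =>
      obtain ⟨n, a, h⟩ := hb
      obtain ⟨m, a', h'⟩ := hc
      refine ⟨n + m, s ^ m * a + s ^ n * a', ?_⟩
      rw [map_add, map_mul, map_mul, map_pow, map_pow, ← h, ← h']
      ring
    | monomial m d =>
      rw [← C_mul_X_pow_eq_monomial]
      refine ⟨n * m, algebraMap D S d * y ^ m, ?_⟩
      rw [map_mul, AlgHom.commutes, map_pow, ← h2, mul_pow, ← pow_mul]
      have h3 : algebraMap D D[X] d = C d := rfl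
      rw [h3]
      ring

end locIso

section chart

variable {D : Type} [CommRing D] (p : ℕ) (f : D)

/-- the function `y f` -/
noncomputable abbrev yf : D[X] := X * C f

/-- the coordinate `y` -/
noncomputable def yy : AS p (yf f) := algebraMap D[X] (AS p (yf f)) X

lemma yy_rel : rt p (yf f) ^ p - rt p (yf f) = yy p f * algebraMap D (AS p (yf f)) f := by
  rw [rt_rel]
  change algebraMap D[X] (AS p (yf f)) (X * C f) = _
  rw [map_mul]
  rfl

lemma pow_split (hp : 2 ≤ p) {B : Type} [CommRing B] (t : B) :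
    t ^ p - t = t * (t ^ (p - 1) - 1) := by
  obtain ⟨q, rfl⟩ : ∃ q, p = q + 1 := ⟨p - 1, by omega⟩
  rw [Nat.add_sub_cancel]
  ring

/-- the chart `y = y' ((y' f) ^ (p - 1) - 1)`, `t = y' f` -/
noncomputable def chart (hp : 2 ≤ p) : AS p (yf f) →ₐ[D] D[X] :=
  asLift (aeval (X * ((X * C f) ^ (p - 1) - 1))) (X * C f) (by
    rw [pow_split p hp, yf, map_mul, aeval_X]
    have h : aeval (X * ((X * C f) ^ (p - 1) - 1) : D[X]) (C f) = C f := aeval_C _ _
    rw [h]
    ring)

variable (hp : 2 ≤ p)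

lemma chart_rt : chart p f hp (rt p (yf f)) = X * C f := asLift_rt _ _ _

lemma chart_yy : chart p f hp (yy p f) = X * ((X * C f) ^ (p - 1) - 1) := by
  rw [chart, yy, asLift_of, aeval_X]

lemma chart_eq {B : Type} [CommRing B] [Algebra D B] (ψ : D[X] →ₐ[D] B) (θ : AS p (yf f) →ₐ[D] B)
    (h1 : ψ (X * ((X * C f) ^ (p - 1) - 1)) = θ (yy p f)) (h2 : ψ (X * C f) = θ (rt p (yf f)))
    (a : AS p (yf f)) : ψ (chart p f hp a) = θ a := by
  have h3 : ψ.comp (chart p f hp) = θ := by
    apply as_ext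
    · intro q
      have h4 : (ψ.comp (chart p f hp)).comp (IsScalarTower.toAlgHom D D[X] (AS p (yf f))) =
          θ.comp (IsScalarTower.toAlgHom D D[X] (AS p (yf f))) := by
        apply Polynomial.algHom_ext
        change ψ (chart p f hp (yy p f)) = θ (yy p f)
        rw [chart_yy, h1]
      exact congrArg (fun u : D[X] →ₐ[D] B => u q) h4
    · rw [AlgHom.comp_apply, chart_rt, h2]
  exact congrArg (fun u : AS p (yf f) →ₐ[D] B => u a) h3

/-- the function `t ^ (p - 1) - 1` -/
noncomputable def s₁ : AS p (yf f) := rt p (yf f) ^ (p - 1) - 1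

/-- the function `f` -/
noncomputable def s₂ : AS p (yf f) := algebraMap D _ f

lemma chart_s₁ : chart p f hp (s₁ p f) = (X * C f) ^ (p - 1) - 1 := by
  rw [s₁, map_sub, map_pow, chart_rt, map_one]

lemma chart_s₂ : chart p f hp (s₂ p f) = C f := by
  rw [s₂, AlgHom.commutes]
  rfl

include hp in
lemma s₁_rel : yy p f * s₂ p f = rt p (yf f) * s₁ p f := by
  rw [s₂, ← yy_rel, s₁, pow_split p hp]

lemma loc₁ : LocIso (chart p f hp : AS p (yf f) →+* D[X]) (s₁ p f) := by
  let L := Localization.Away (s₁ p f)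
  obtain ⟨v, hv⟩ := (IsLocalization.Away.algebraMap_isUnit (S := L) (s₁ p f)).exists_right_inv
  let θ : AS p (yf f) →ₐ[D] L := IsScalarTower.toAlgHom D (AS p (yf f)) L
  have hθ : ∀ a, θ a = algebraMap (AS p (yf f)) L a := fun a => rfl
  let ψ : D[X] →ₐ[D] L := aeval (θ (yy p f) * v)
  have hC : ψ (C f) = θ (s₂ p f) := by
    change aeval _ (C f) = θ (algebraMap D _ f)
    rw [aeval_C, AlgHom.commutes]
  have hX : ψ X = θ (yy p f) * v := aeval_X _
  rw [← hθ] at hv
  have hXC : ψ (X * C f) = θ (rt p (yf f)) := by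
    rw [map_mul, hX, hC]
    calc θ (yy p f) * v * θ (s₂ p f) = θ (yy p f * s₂ p f) * v := by rw [map_mul]; ring
      _ = θ (rt p (yf f)) * (θ (s₁ p f) * v) := by rw [s₁_rel p f hp, map_mul]; ring
      _ = _ := by rw [hv, mul_one]
  refine locIso_of ψ (chart_eq p f hp ψ θ ?_ hXC) (yy p f) 1 ?_
  · rw [map_mul, map_sub, map_pow, hXC, map_one, hX]
    have h3 : θ (s₁ p f) = θ (rt p (yf f)) ^ (p - 1) - 1 := by
      change θ (rt p (yf f) ^ (p - 1) - 1) = _
      rw [map_sub, map_pow, map_one]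
    rw [← h3]
    calc θ (yy p f) * v * θ (s₁ p f) = θ (yy p f) * (θ (s₁ p f) * v) := by ring
      _ = _ := by rw [hv, mul_one]
  · rw [pow_one, chart_s₁, chart_yy]
    ring

lemma loc₂ : LocIso (chart p f hp : AS p (yf f) →+* D[X]) (s₂ p f) := by
  let L := Localization.Away (s₂ p f)
  obtain ⟨v, hv⟩ := (IsLocalization.Away.algebraMap_isUnit (S := L) (s₂ p f)).exists_right_inv
  let θ : AS p (yf f) →ₐ[D] L := IsScalarTower.toAlgHom D (AS p (yf f)) L
  have hθ : ∀ a, θ a = algebraMap (AS p (yf f)) L a := fun a => rfl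
  let ψ : D[X] →ₐ[D] L := aeval (θ (rt p (yf f)) * v)
  have hC : ψ (C f) = θ (s₂ p f) := by
    change aeval _ (C f) = θ (algebraMap D _ f)
    rw [aeval_C, AlgHom.commutes]
  have hX : ψ X = θ (rt p (yf f)) * v := aeval_X _
  rw [← hθ] at hv
  have hXC : ψ (X * C f) = θ (rt p (yf f)) := by
    rw [map_mul, hX, hC]
    calc θ (rt p (yf f)) * v * θ (s₂ p f) = θ (rt p (yf f)) * (θ (s₂ p f) * v) := by ring
      _ = _ := by rw [hv, mul_one]
  refine locIso_of ψ (chart_eq p f hp ψ θ ?_ hXC) (rt p (yf f)) 1 ?_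
  · rw [map_mul, map_sub, map_pow, hXC, map_one, hX]
    have h3 : θ (s₁ p f) = θ (rt p (yf f)) ^ (p - 1) - 1 := by
      change θ (rt p (yf f) ^ (p - 1) - 1) = _
      rw [map_sub, map_pow, map_one]
    rw [← h3]
    calc θ (rt p (yf f)) * v * θ (s₁ p f) = θ (rt p (yf f) * s₁ p f) * v := by
          rw [map_mul]; ring
      _ = θ (yy p f) * (θ (s₂ p f) * v) := by rw [← s₁_rel p f hp, map_mul]; ring
      _ = _ := by rw [hv, mul_one]
  · rw [pow_one, chart_s₂, chart_rt]
    ring

lemma chart_unit : (-1 : D[X]) * chart p f hp (s₁ p f) +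
    (X * (X * C f) ^ (p - 2)) * chart p f hp (s₂ p f) = 1 := by
  rw [chart_s₁, chart_s₂]
  obtain ⟨q, rfl⟩ : ∃ q, p = q + 2 := ⟨p - 2, by omega⟩
  rw [Nat.add_sub_cancel, show q + 2 - 1 = q + 1 by omega, pow_succ]
  ring

end chart

end Pool.Agent.Helper62.EC
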