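import Mathlib

/-!
# Localizations of monogenic algebras are monogenic

For a monic polynomial `f` over `R` and `g` in `R` the localization of `R[T] / (f)` at `g` is
`R[T] / (G)` with `G = g ^ D f (T - 1 / g)`.
-/

set_option autoImplicit false

open Polynomial

namespace Pool.Agent.Helper62.EC

section

variable {R : Type} [CommRing R] (f : R[X]) (g : R)

/-- `g ^ D f (T - 1 / g)`, `D` the degree of `f` -/
noncomputable def clear : R[X] := (scaleRoots f g).comp (C g * X - 1)

variable {A : Type} [CommRing A] [Algebra R A]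

lemma aeval_lin {y h : A} (hh : algebraMap R A g * h = 1) :
    aeval y (C g * X - 1 : R[X]) = algebraMap R A g * (y - h) := by
  rw [map_sub, map_mul, aeval_C, aeval_X, map_one]
  linear_combination hh

lemma aeval_clear {y h : A} (hh : algebraMap R A g * h = 1) :
    aeval y (clear f g) = algebraMap R A g ^ f.natDegree * aeval (y - h) f := by
  rw [clear, aeval_comp, aeval_lin g hh, aeval_def, scaleRoots_eval₂_mul, ← aeval_def]

lemma scale_comp : (scaleRoots f g).comp (C g * X) = C (g ^ f.natDegree) * f := by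
  have h := scaleRoots_eval₂_mul (p := f) (C : R →+* R[X]) X g
  rw [eval₂_C_X, ← C_pow] at h
  exact h

lemma aeval_clear' {y h : A} (hh : algebraMap R A g * h = 1) :
    aeval y (derivative (clear f g)) =
      algebraMap R A g ^ f.natDegree * aeval (y - h) (derivative f) := by
  have h1 : C g * (derivative (scaleRoots f g)).comp (C g * X) =
      C (g ^ f.natDegree) * derivative f := by
    have h2 := congrArg derivative (scale_comp f g)
    rw [derivative_comp, derivative_C_mul, derivative_X, mul_one, derivative_C_mul] at h2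
    exact h2
  have h3 := congrArg (aeval (y - h)) h1
  rw [map_mul, aeval_C, aeval_comp, map_mul, aeval_C, aeval_X, map_mul, aeval_C, map_pow] at h3
  rw [clear, derivative_comp, derivative_sub, derivative_C_mul, derivative_X, mul_one,
    derivative_one, sub_zero, map_mul, aeval_C, aeval_comp, aeval_lin g hh, h3]

variable {f}

lemma aeval_clear_zero (hf : f.Monic) (y : A) (hg : algebraMap R A g = 0) :
    aeval y (clear f g) = (-1) ^ f.natDegree := by
  have h1 : aeval y (C g * X - 1 : R[X]) = -1 := by
    rw [map_sub, map_mul, aeval_C, hg, zero_mul, map_one, zero_sub]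
  rw [clear, aeval_comp, h1, aeval_def, eval₂_eq_sum_range, natDegree_scaleRoots,
    Finset.sum_eq_single f.natDegree]
  · rw [coeff_scaleRoots, Nat.sub_self, pow_zero, mul_one, hf.coeff_natDegree, map_one, one_mul]
  · intro i hi hne
    have h2 : f.natDegree - i ≠ 0 := by
      have := Finset.mem_range.1 hi
      omega
    rw [coeff_scaleRoots, map_mul, map_pow, hg, zero_pow h2, mul_zero, zero_mul]
  · intro h
    exact absurd (Finset.mem_range.2 (Nat.lt_succ_self _)) h

lemma isUnit_of_root (hf : f.Monic) {y : A} (hy : aeval y (clear f g) = 0) :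
    IsUnit (algebraMap R A g) := by
  rw [← Ideal.span_singleton_eq_top, Ideal.eq_top_iff_one]
  have h1 := aeval_clear_zero (A := A ⧸ Ideal.span {algebraMap R A g}) g hf
    (Ideal.Quotient.mk _ y) (by
      change Ideal.Quotient.mk _ (algebraMap R A g) = 0
      exact Ideal.Quotient.eq_zero_iff_mem.2 (Ideal.mem_span_singleton_self _))
  have h2 : aeval (Ideal.Quotient.mkₐ R (Ideal.span {algebraMap R A g}) y) (clear f g) =
      Ideal.Quotient.mkₐ R (Ideal.span {algebraMap R A g}) (aeval y (clear f g)) :=
    aeval_algHom_apply _ _ _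
  rw [hy, map_zero] at h2
  have h3 : ((-1 : A ⧸ Ideal.span {algebraMap R A g}) ^ f.natDegree) = 0 := h1.symm.trans h2
  have h4 : (1 : A ⧸ Ideal.span {algebraMap R A g}) = 0 := by
    have h5 := congrArg (fun x => (-1) ^ f.natDegree * x) h3
    simp only [← mul_pow, mul_zero] at h5
    simpa using h5
  exact Ideal.Quotient.eq_zero_iff_mem.1 h4

/-- If `f` is separable where `g` is invertible, then `g ^ D f (T - 1 / g)` is separable. -/
theorem coprime_clear (hf : f.Monic) {u v : R[X]} {δ : R} (h : u * f + v * derivative f = C δ)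
    (hδ : δ ∣ g) : IsCoprime (clear f g) (derivative (clear f g)) := by
  let J : Ideal R[X] := Ideal.span {clear f g, derivative (clear f g)}
  let y : R[X] ⧸ J := Ideal.Quotient.mk J X
  have hy : ∀ q : R[X], aeval y q = Ideal.Quotient.mk J q := by
    intro q
    have h1 := aeval_algHom_apply (Ideal.Quotient.mkₐ R J) X q
    rw [aeval_X_left_apply] at h1
    exact h1
  have h1 : aeval y (clear f g) = 0 := by
    rw [hy]
    exact Ideal.Quotient.eq_zero_iff_mem.2 (Ideal.subset_span (by simp))
  have h2 : aeval y (derivative (clear f g)) = 0 := by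
    rw [hy]
    exact Ideal.Quotient.eq_zero_iff_mem.2 (Ideal.subset_span (by simp))
  have hu := isUnit_of_root g hf h1
  obtain ⟨h0, hh⟩ := hu.exists_right_inv
  rw [aeval_clear f g hh] at h1
  rw [aeval_clear' f g hh] at h2
  have h3 : aeval (y - h0) f = 0 := (hu.pow _).mul_right_eq_zero.1 h1
  have h4 : aeval (y - h0) (derivative f) = 0 := (hu.pow _).mul_right_eq_zero.1 h2
  have h5 := congrArg (aeval (y - h0)) h
  rw [map_add, map_mul, map_mul, h3, h4, mul_zero, mul_zero, add_zero, aeval_C] at h5
  obtain ⟨c, rfl⟩ := hδ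
  rw [map_mul, ← h5, zero_mul] at hh
  rw [zero_mul] at hh
  have h6 : (1 : R[X]) ∈ J := Ideal.Quotient.eq_zero_iff_mem.1 hh.symm
  obtain ⟨a, b, hab⟩ := Ideal.mem_span_pair.1 h6
  exact ⟨a, b, hab⟩

/-- The localization of `R[T] / (f)` at `g`. -/
theorem exists_clearE (hf : f.Monic) :
    Nonempty (AdjoinRoot (clear f g) ≃ₐ[R]
      Localization.Away (algebraMap R (AdjoinRoot f) g)) := by
  let L := Localization.Away (algebraMap R (AdjoinRoot f) g)
  let M := AdjoinRoot (clear f g)
  -- inverse of `g` in `M`
  have hM1 : aeval (AdjoinRoot.root (clear f g)) (clear f g) = (0 : M) := by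
    rw [AdjoinRoot.aeval_eq, AdjoinRoot.mk_self]
  have hMu : IsUnit (algebraMap R M g) := isUnit_of_root g hf hM1
  obtain ⟨h, hh⟩ := hMu.exists_right_inv
  -- inverse of `g` in `L`
  have hLg : algebraMap R L g = algebraMap (AdjoinRoot f) L (algebraMap R (AdjoinRoot f) g) :=
    IsScalarTower.algebraMap_apply R (AdjoinRoot f) L g
  have hLu : IsUnit (algebraMap R L g) := by
    rw [hLg]
    exact IsLocalization.Away.algebraMap_isUnit _
  obtain ⟨l, hl⟩ := hLu.exists_right_inv
  let t : L := algebraMap (AdjoinRoot f) L (AdjoinRoot.root f)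
  have ht : aeval t f = 0 := by
    have h1 := aeval_algHom_apply (IsScalarTower.toAlgHom R (AdjoinRoot f) L)
      (AdjoinRoot.root f) f
    rw [AdjoinRoot.aeval_eq, AdjoinRoot.mk_self, map_zero] at h1
    exact h1
  have ht1 : (clear f g).eval₂ (Algebra.ofId R L) (t + l) = 0 := by
    have h1 := aeval_clear f g (y := t + l) hl
    rw [add_sub_cancel_right, ht, mul_zero] at h1
    exact h1
  let φ : M →ₐ[R] L := AdjoinRoot.liftAlgHom (clear f g) (Algebra.ofId R L) (t + l) ht1
  have hr1 : f.eval₂ (Algebra.ofId R M) (AdjoinRoot.root (clear f g) - h) = 0 := by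
    have h1 := aeval_clear f g (y := AdjoinRoot.root (clear f g)) hh
    rw [hM1] at h1
    exact (hMu.pow _).mul_right_eq_zero.1 h1.symm
  let ψ0 : AdjoinRoot f →ₐ[R] M :=
    AdjoinRoot.liftAlgHom f (Algebra.ofId R M) (AdjoinRoot.root (clear f g) - h) hr1
  let ψ : L →ₐ[R] M := IsLocalization.liftAlgHom
    (M := Submonoid.powers (algebraMap R (AdjoinRoot f) g)) (f := ψ0) (by
      rintro ⟨_, n, rfl⟩
      change IsUnit (ψ0 (algebraMap R (AdjoinRoot f) g ^ n))
      rw [map_pow, AlgHom.commutes]
      exact hMu.pow n)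
  have hψ : ∀ a, ψ (algebraMap (AdjoinRoot f) L a) = ψ0 a := fun a => by
    change IsLocalization.liftAlgHom _ _ = _
    rw [IsLocalization.liftAlgHom_apply, IsLocalization.lift_eq]
    rfl
  have hφr : φ (AdjoinRoot.root (clear f g)) = t + l := AdjoinRoot.liftAlgHom_root _ _ _ _
  have hψr : ψ0 (AdjoinRoot.root f) = AdjoinRoot.root (clear f g) - h :=
    AdjoinRoot.liftAlgHom_root _ _ _ _
  have hφh : φ h = l := by
    have h1 := congrArg φ hh
    rw [map_mul, AlgHom.commutes, map_one] at h1
    calc φ h = φ h * (algebraMap R L g * l) := by rw [hl, mul_one]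
      _ = (algebraMap R L g * φ h) * l := by ring
      _ = l := by rw [h1, one_mul]
  have hψl : ψ l = h := by
    have h1 := congrArg ψ hl
    rw [map_mul, AlgHom.commutes, map_one] at h1
    calc ψ l = ψ l * (algebraMap R M g * h) := by rw [hh, mul_one]
      _ = (algebraMap R M g * ψ l) * h := by ring
      _ = h := by rw [h1, one_mul]
  refine ⟨AlgEquiv.ofAlgHom φ ψ ?_ ?_⟩
  · have h1 : ∀ a : AdjoinRoot f, φ (ψ0 a) = algebraMap (AdjoinRoot f) L a := by
      have h2 : φ.comp ψ0 = IsScalarTower.toAlgHom R (AdjoinRoot f) L := by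
        apply AdjoinRoot.algHom_ext
        rw [AlgHom.comp_apply, hψr, map_sub, hφr, hφh, add_sub_cancel_right]
        rfl
      intro a
      exact congrArg (fun k : AdjoinRoot f →ₐ[R] L => k a) h2
    have h3 : ((φ.comp ψ : L →ₐ[R] L) : L →+* L) = ((AlgHom.id R L : L →ₐ[R] L) : L →+* L) := by
      apply IsLocalization.ringHom_ext (Submonoid.powers (algebraMap R (AdjoinRoot f) g))
      apply RingHom.ext
      intro a
      change φ (ψ (algebraMap (AdjoinRoot f) L a)) = algebraMap (AdjoinRoot f) L a
      rw [hψ, h1]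
    exact AlgHom.coe_ringHom_injective h3
  · apply AdjoinRoot.algHom_ext
    rw [AlgHom.comp_apply, hφr, map_add, hψl, hψ, hψr, sub_add_cancel]
    rfl

end

end Pool.Agent.Helper62.EC
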