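import Mathlib

/-!
# Common localizations of two domains with the same fraction field
-/

set_option autoImplicit false

namespace Pool.Agent.Helper62.EC

section Ls

variable {k : Type} [Field k] {A : Type} [CommRing A] [IsDomain A] [Algebra k A]
  {K : Type} [Field K] [Algebra k K] (φ : A →ₐ[k] K) (a : A)

/-- the elements of the subring `φ(A)[1 / φ(a)]` of the field `K` -/
def Ls : Subalgebra k K where
  carrier := {y | ∃ (N : ℕ) (b : A), φ a ^ N * y = φ b}
  mul_mem' := by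
    rintro y z ⟨m, p, h1⟩ ⟨m', p', h2⟩
    refine ⟨m + m', p * p', ?_⟩
    rw [map_mul, ← h1, ← h2, pow_add]
    ring
  add_mem' := by
    rintro y z ⟨m, p, h1⟩ ⟨m', p', h2⟩
    refine ⟨m + m', a ^ m' * p + a ^ m * p', ?_⟩
    rw [map_add, map_mul, map_mul, map_pow, map_pow, ← h1, ← h2, pow_add]
    ring
  algebraMap_mem' := by
    intro r
    refine ⟨0, algebraMap k A r, ?_⟩
    rw [pow_zero, one_mul, AlgHom.commutes]

variable {φ a}

lemma mem_Ls {y : K} : y ∈ Ls φ a ↔ ∃ (N : ℕ) (b : A), φ a ^ N * y = φ b := Iff.rfl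

lemma apply_mem_Ls (b : A) : φ b ∈ Ls φ a := ⟨0, b, by rw [pow_zero, one_mul]⟩

lemma inv_mem_Ls (ha : φ a ≠ 0) : (φ a)⁻¹ ∈ Ls φ a :=
  ⟨1, 1, by rw [pow_one, mul_inv_cancel₀ ha, map_one]⟩

lemma Ls_le_mul (b : A) : Ls φ a ≤ Ls φ (a * b) := by
  rintro y ⟨N, c, h⟩
  exact ⟨N, b ^ N * c, by rw [map_mul, map_mul, ← h, map_pow]; ring⟩

lemma Ls_le_mul' (b : A) : Ls φ a ≤ Ls φ (b * a) := by
  rw [mul_comm]
  exact Ls_le_mul b

/-- the localization as a subring of the field -/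
theorem exists_Ls_equiv (hφ : Function.Injective φ) (ha : a ≠ 0) :
    Nonempty (Localization.Away a ≃ₐ[k] Ls φ a) := by
  have ha' : φ a ≠ 0 := fun h => ha (hφ (h.trans (map_zero φ).symm))
  let g0 : A →ₐ[k] Ls φ a := φ.codRestrict _ fun b => apply_mem_Ls b
  have hg0 : ∀ b, (g0 b : K) = φ b := fun b => rfl
  have hu : IsUnit (g0 a) := by
    refine IsUnit.of_mul_eq_one ⟨(φ a)⁻¹, inv_mem_Ls ha'⟩ ?_
    apply Subtype.ext
    change φ a * (φ a)⁻¹ = 1
    exact mul_inv_cancel₀ ha'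
  let g : Localization.Away a →ₐ[k] Ls φ a := IsLocalization.liftAlgHom
    (M := Submonoid.powers a) (f := g0) (by
      rintro ⟨_, n, rfl⟩
      change IsUnit (g0 (a ^ n))
      rw [map_pow]
      exact hu.pow n)
  have hg : ∀ b, g (algebraMap A _ b) = g0 b := fun b => by
    change IsLocalization.liftAlgHom _ _ = _
    rw [IsLocalization.liftAlgHom_apply, IsLocalization.lift_eq]
    rfl
  have hsurj0 : ∀ c : Localization.Away a, ∃ (n : ℕ) (b : A),
      c * algebraMap A _ a ^ n = algebraMap A _ b := by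
    intro c
    obtain ⟨⟨b, ⟨_, n, rfl⟩⟩, hb⟩ := IsLocalization.surj (Submonoid.powers a) c
    refine ⟨n, b, ?_⟩
    rw [← map_pow]
    exact hb
  refine ⟨AlgEquiv.ofBijective g ⟨?_, ?_⟩⟩
  · rw [injective_iff_map_eq_zero]
    intro c hc
    obtain ⟨n, b, hb⟩ := hsurj0 c
    have h1 := congrArg g hb
    rw [map_mul, hc, zero_mul, hg] at h1
    have h2 : b = 0 := hφ (by
      have h3 := congrArg (Subtype.val) h1
      rw [hg0] at h3
      rw [map_zero, ← h3]
      rfl)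
    rw [h2, map_zero] at hb
    exact ((IsLocalization.Away.algebraMap_isUnit (S := Localization.Away a) a).pow
      n).mul_left_eq_zero.mp hb
  · rintro ⟨y, N, b, h⟩
    obtain ⟨c, hc⟩ := ((IsLocalization.Away.algebraMap_isUnit
      (S := Localization.Away a) a).pow N).exists_right_inv
    refine ⟨algebraMap A _ b * c, ?_⟩
    have h1 : g (algebraMap A _ a ^ N * c) = 1 := by rw [hc, map_one]
    rw [map_mul, map_pow, hg] at h1
    rw [map_mul, hg]
    have h2 : g0 b = g0 a ^ N * ⟨y, N, b, h⟩ := by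
      apply Subtype.ext
      exact h.symm
    rw [h2, mul_right_comm, h1, one_mul]

end Ls

section common

variable {k : Type} [Field k] {A B R : Type} [CommRing A] [IsDomain A] [Algebra k A]
  [CommRing B] [IsDomain B] [Algebra k B] [CommRing R] [IsDomain R] [Algebra k R] [Algebra R A]
  {K : Type} [Field K] [Algebra k K]

lemma common_denom (S : Finset K) {M : Type} [CommRing M] [IsDomain M] (τ : M →+* K)
    (hτ : Function.Injective τ) (P : K → Prop)
    (hP : ∀ (m : M) (y : K), P y → P (τ m * y)) (h : ∀ y ∈ S, ∃ m : M, m ≠ 0 ∧ P (τ m * y)) :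
    ∃ m : M, m ≠ 0 ∧ ∀ y ∈ S, P (τ m * y) := by
  classical
  induction S using Finset.induction_on with
  | empty => exact ⟨1, one_ne_zero, by simp⟩
  | insert a S ha ih =>
    obtain ⟨m, hm, h1⟩ := ih fun y hy => h y (Finset.mem_insert_of_mem hy)
    obtain ⟨m', hm', h2⟩ := h a (Finset.mem_insert_self _ _)
    refine ⟨m * m', mul_ne_zero hm hm', ?_⟩
    intro y hy
    rcases Finset.mem_insert.1 hy with rfl | hy
    · rw [map_mul, mul_assoc]
      exact hP _ _ h2
    · rw [mul_comm m m', map_mul, mul_assoc]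
      exact hP _ _ (h1 y hy)

/-- If all elements of `K` are fractions with numerators in `A` and denominators in `R`, and fractions
of elements of `B`, then some localization of `A` at an element of `R` is a localization of `B`. -/
theorem exists_common [Algebra.FiniteType k A] [Algebra.FiniteType k B]
    (ψ : A →ₐ[k] K) (hψ : Function.Injective ψ) (φ : B →ₐ[k] K) (hφ : Function.Injective φ)
    (hRA : Function.Injective (algebraMap R A))
    (h1 : ∀ y : K, ∃ (d : R) (c : A), d ≠ 0 ∧ ψ (algebraMap R A d) * y = ψ c)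
    (h2 : ∀ y : K, ∃ (d b : B), d ≠ 0 ∧ φ d * y = φ b) (δ : R) (hδ : δ ≠ 0) :
    ∃ (w : B) (g : R), w ≠ 0 ∧ g ≠ 0 ∧ δ ∣ g ∧
      Nonempty (Localization.Away w ≃ₐ[k] Localization.Away (algebraMap R A g)) := by
  classical
  have inj0 : ∀ {x : A}, x ≠ 0 → ψ x ≠ 0 := fun {x} hx h => hx (hψ (h.trans (map_zero ψ).symm))
  have inj1 : ∀ {x : B}, x ≠ 0 → φ x ≠ 0 := fun {x} hx h => hx (hφ (h.trans (map_zero φ).symm))
  have inj2 : ∀ {x : R}, x ≠ 0 → algebraMap R A x ≠ 0 := fun {x} hx h =>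
    hx (hRA (h.trans (map_zero _).symm))
  obtain ⟨SB, hSB⟩ := (Algebra.FiniteType.out : (⊤ : Subalgebra k B).FG)
  obtain ⟨SA, hSA⟩ := (Algebra.FiniteType.out : (⊤ : Subalgebra k A).FG)
  -- a denominator for `B`
  obtain ⟨d1, hd1, hd1'⟩ := common_denom (SB.image φ) (ψ.toRingHom.comp (algebraMap R A))
    (hψ.comp hRA) (fun y => ∃ c : A, y = ψ c) (by
      rintro m y ⟨c, rfl⟩
      refine ⟨algebraMap R A m * c, ?_⟩
      rw [map_mul]
      rfl) (by
      intro y hy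
      obtain ⟨d, c, hd, h⟩ := h1 y
      exact ⟨d, hd, c, h⟩)
  -- a denominator for `A`
  obtain ⟨w1, hw1, hw1'⟩ := common_denom (SA.image ψ) φ.toRingHom hφ
    (fun y => ∃ b : B, y = φ b) (by
      rintro m y ⟨c, rfl⟩
      refine ⟨m * c, ?_⟩
      rw [map_mul]
      rfl) (by
      intro y hy
      obtain ⟨d, c, hd, h⟩ := h2 y
      exact ⟨d, hd, c, h⟩)
  have hB : ∀ b : B, φ b ∈ Ls ψ (algebraMap R A d1) := by
    have h3 : (⊤ : Subalgebra k B) ≤ (Ls ψ (algebraMap R A d1)).comap φ := by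
      rw [← hSB, Algebra.adjoin_le_iff]
      intro b hb
      obtain ⟨c, hc⟩ := hd1' (φ b) (Finset.mem_image_of_mem _ hb)
      exact ⟨1, c, by rw [pow_one]; exact hc⟩
    intro b
    exact h3 (Algebra.mem_top (x := b))
  have hA : ∀ c : A, ψ c ∈ Ls φ w1 := by
    have h3 : (⊤ : Subalgebra k A) ≤ (Ls φ w1).comap ψ := by
      rw [← hSA, Algebra.adjoin_le_iff]
      intro c hc
      obtain ⟨b, hb⟩ := hw1' (ψ c) (Finset.mem_image_of_mem _ hc)
      exact ⟨1, b, by rw [pow_one]; exact hb⟩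
    intro c
    exact h3 (Algebra.mem_top (x := c))
  obtain ⟨d2, c2, hd2, hd2'⟩ := h1 (φ w1)⁻¹
  let g : R := δ * d1 * d2
  have hg : g ≠ 0 := mul_ne_zero (mul_ne_zero hδ hd1) hd2
  obtain ⟨M, w2, hw2⟩ := hA (algebraMap R A g)
  have hw2' : w2 ≠ 0 := by
    rintro rfl
    rw [map_zero] at hw2
    exact mul_ne_zero (pow_ne_zero _ (inj1 hw1)) (inj0 (inj2 hg)) hw2
  have hgne : ψ (algebraMap R A g) ≠ 0 := inj0 (inj2 hg)
  refine ⟨w1 * w2, g, mul_ne_zero hw1 hw2', hg, ⟨d1 * d2, mul_assoc _ _ _⟩, ?_⟩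
  have key : Ls φ (w1 * w2) = Ls ψ (algebraMap R A g) := by
    have e1 : Ls ψ (algebraMap R A d1) ≤ Ls ψ (algebraMap R A g) := by
      have : g = d1 * (δ * d2) := by ring
      rw [this, map_mul]
      exact Ls_le_mul _
    have e2 : Ls ψ (algebraMap R A d2) ≤ Ls ψ (algebraMap R A g) := by
      have : g = d2 * (δ * d1) := by ring
      rw [this, map_mul]
      exact Ls_le_mul _
    have e3 : (φ w1)⁻¹ ∈ Ls ψ (algebraMap R A g) := e2 ⟨1, c2, by rw [pow_one]; exact hd2'⟩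
    have e4 : (ψ (algebraMap R A g))⁻¹ ∈ Ls ψ (algebraMap R A g) := inv_mem_Ls hgne
    have e5 : (φ w2)⁻¹ = (ψ (algebraMap R A g))⁻¹ * ((φ w1)⁻¹) ^ M := by
      rw [← hw2, mul_inv, inv_pow, mul_comm]
    apply le_antisymm
    · rintro y ⟨N, b, h⟩
      have h3 : y = φ b * ((φ w1)⁻¹ * (φ w2)⁻¹) ^ N := by
        rw [← h, map_mul, mul_pow, mul_pow, inv_pow, inv_pow]
        have a1 := pow_ne_zero N (inj1 hw1)
        have a2 := pow_ne_zero N (inj1 hw2')
        field_simp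
      rw [h3, e5]
      exact mul_mem (e1 (hB b)) (pow_mem (mul_mem e3 (mul_mem e4 (pow_mem e3 M))) N)
    · rintro y ⟨N, c, h⟩
      have a0 := Ls_le_mul (φ := φ) (a := w1) w2
      have a1 : (φ (w1 * w2))⁻¹ ∈ Ls φ (w1 * w2) := inv_mem_Ls (inj1 (mul_ne_zero hw1 hw2'))
      have a2 : (φ w2)⁻¹ = φ w1 * (φ (w1 * w2))⁻¹ := by
        rw [map_mul, mul_inv, ← mul_assoc, mul_inv_cancel₀ (inj1 hw1), one_mul]
      have a3 : (ψ (algebraMap R A g))⁻¹ = φ w1 ^ M * (φ w2)⁻¹ := by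
        rw [← hw2, mul_inv, ← mul_assoc, mul_inv_cancel₀ (pow_ne_zero _ (inj1 hw1)), one_mul]
      have h3 : y = ψ c * ((ψ (algebraMap R A g))⁻¹) ^ N := by
        rw [← h, inv_pow]
        have a1 := pow_ne_zero N hgne
        field_simp
      rw [h3, a3, a2]
      exact mul_mem (a0 (hA c)) (pow_mem (mul_mem (pow_mem (apply_mem_Ls w1) M)
        (mul_mem (apply_mem_Ls w1) a1)) N)
  obtain ⟨E1⟩ := exists_Ls_equiv (φ := φ) (a := w1 * w2) hφ (mul_ne_zero hw1 hw2')
  obtain ⟨E2⟩ := exists_Ls_equiv (φ := ψ) (a := algebraMap R A g) hψ (inj2 hg)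
  exact ⟨E1.trans ((Subalgebra.equivOfEq _ _ key).trans E2.symm)⟩

end common

end Pool.Agent.Helper62.EC
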