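import Mathlib

/-!
# Nagata's change of variables with `p`-th powers
-/

set_option autoImplicit false

open Polynomial

namespace Pool.Agent.Helper62.EC

section shift

variable {k : Type} [Field k] {σ : Type}

/-- `x_i ↦ x_i + u T ^ (e i)`, `T ↦ T`. -/
noncomputable def shift (u : k) (e : σ → ℕ) :
    (MvPolynomial σ k)[X] →ₐ[k] (MvPolynomial σ k)[X] :=
  eval₂AlgHom (MvPolynomial.aeval fun i => C (MvPolynomial.X i) + C (MvPolynomial.C u) * X ^ (e i))
    X fun _ => Commute.all _ _

lemma shift_X (u : k) (e : σ → ℕ) : shift u e X = X := by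
  simp [shift]

lemma shift_CX (u : k) (e : σ → ℕ) (i : σ) :
    shift u e (C (MvPolynomial.X i)) = C (MvPolynomial.X i) + C (MvPolynomial.C u) * X ^ (e i) := by
  simp [shift]

lemma shift_CC (u : k) (e : σ → ℕ) (a : k) :
    shift u e (C (MvPolynomial.C a)) = C (MvPolynomial.C a) := by
  have h : (C (MvPolynomial.C a) : (MvPolynomial σ k)[X]) = algebraMap k _ a := rfl
  rw [h, AlgHom.commutes]

lemma hom_ext {A : Type} [CommRing A] [Algebra k A] {f g : (MvPolynomial σ k)[X] →ₐ[k] A}
    (h1 : f X = g X) (h2 : ∀ i, f (C (MvPolynomial.X i)) = g (C (MvPolynomial.X i))) : f = g := by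
  have h3 : (f : (MvPolynomial σ k)[X] →+* A).comp C = (g : (MvPolynomial σ k)[X] →+* A).comp C := by
    apply MvPolynomial.ringHom_ext
    · intro r
      change f (algebraMap k _ r) = g (algebraMap k _ r)
      rw [AlgHom.commutes, AlgHom.commutes]
    · exact h2
  have h4 : (f : (MvPolynomial σ k)[X] →+* A) = (g : (MvPolynomial σ k)[X] →+* A) := by
    apply Polynomial.ringHom_ext'
    · exact h3
    · exact h1
  exact AlgHom.coe_ringHom_injective h4

lemma shift_shift (u v : k) (e : σ → ℕ) (h : u + v = 0) :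
    (shift u e).comp (shift v e) = AlgHom.id k _ := by
  apply hom_ext
  · rw [AlgHom.comp_apply, shift_X, shift_X]; rfl
  · intro i
    have hu : (MvPolynomial.C u : MvPolynomial σ k) + MvPolynomial.C v = 0 := by
      rw [← map_add, h, map_zero]
    rw [AlgHom.comp_apply, shift_CX, map_add, shift_CX, map_mul, shift_CC, map_pow, shift_X,
      add_assoc, ← add_mul, ← C_add, hu, C_0, zero_mul, add_zero]
    rfl

/-- the automorphism `x_i ↦ x_i + T ^ (e i)`, `T ↦ T` -/
noncomputable def shiftE (e : σ → ℕ) : (MvPolynomial σ k)[X] ≃ₐ[k] (MvPolynomial σ k)[X] :=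
  AlgEquiv.ofAlgHom (shift 1 e) (shift (-1) e) (shift_shift _ _ e (by ring))
    (shift_shift _ _ e (by ring))

lemma shiftE_apply (e : σ → ℕ) (q : (MvPolynomial σ k)[X]) : shiftE e q = shift 1 e q := rfl

/-- The derivative with respect to `T` commutes with the change of variables, if all exponents are
divisible by the characteristic. -/
lemma derivative_shift (u : k) (p : ℕ) [CharP k p] (e : σ → ℕ) (he : ∀ i, p ∣ e i)
    (q : (MvPolynomial σ k)[X]) :
    derivative (shift u e q) = shift u e (derivative q) := by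
  have hp : ((p : ℕ) : (MvPolynomial σ k)[X]) = 0 := by
    have h1 : ((p : ℕ) : (MvPolynomial σ k)[X]) = algebraMap k _ (p : k) := by
      rw [map_natCast]
    rw [h1, CharP.cast_eq_zero, map_zero]
  have hC : ∀ r : MvPolynomial σ k, derivative (shift u e (C r)) = 0 := by
    intro r
    induction r using MvPolynomial.induction_on with
    | C a => rw [shift_CC, derivative_C]
    | add a b ha hb => rw [C_add, map_add, derivative_add, ha, hb, add_zero]
    | mul_X a i ha =>
      rw [C_mul, map_mul, derivative_mul, ha, shift_CX, zero_mul, zero_add, derivative_add,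
        derivative_C, derivative_C_mul, derivative_X_pow, zero_add]
      obtain ⟨c, hc⟩ := he i
      have h2 : (C ((e i : ℕ) : MvPolynomial σ k)) = (0 : (MvPolynomial σ k)[X]) := by
        rw [hc, Nat.cast_mul, C_mul, Polynomial.C_eq_natCast, hp, zero_mul]
      rw [h2, zero_mul, mul_zero, mul_zero]
  induction q using Polynomial.induction_on' with
  | add a b ha hb => rw [map_add, derivative_add, derivative_add, map_add, ha, hb]
  | monomial n r =>
    rw [← C_mul_X_pow_eq_monomial, map_mul, map_pow, shift_X, derivative_mul, hC, zero_mul,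
      zero_add, derivative_C_mul, derivative_X_pow, map_mul, map_mul, map_pow, shift_X,
      Polynomial.C_eq_natCast, map_natCast]

end shift

section exponents

/-- a good base for the exponents -/
lemma exists_base (p m : ℕ) (hp : p ≠ 0) (S : Finset (Σ _ : ℕ, Fin m →₀ ℕ)) :
    ∃ E : ℕ, 1 ≤ E ∧ ∀ s ∈ S, ∀ t ∈ S,
      s.1 + p * ∑ i, s.2 i * E ^ (i.1 + 1) = t.1 + p * ∑ i, t.2 i * E ^ (i.1 + 1) → s = t := by
  classical
  let q : (Σ _ : ℕ, Fin m →₀ ℕ) → ℤ[X] := fun s =>
    C (s.1 : ℤ) + C (p : ℤ) * ∑ i : Fin m, C (s.2 i : ℤ) * X ^ (i.1 + 1)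
  have hq : ∀ s t, q s = q t → s = t := by
    intro s t h
    have h0 := congrArg (fun f : ℤ[X] => f.coeff 0) h
    have h1 : ∀ s : (Σ _ : ℕ, Fin m →₀ ℕ), (q s).coeff 0 = s.1 := by
      intro s
      simp [q, coeff_zero_eq_eval_zero, eval_finsetSum]
    have h2 : ∀ (s : (Σ _ : ℕ, Fin m →₀ ℕ)) (j : Fin m), (q s).coeff (j.1 + 1) = p * s.2 j := by
      intro s j
      simp only [q, coeff_add, coeff_C, coeff_C_mul, finsetSum_coeff, coeff_X_pow]
      rw [Finset.sum_eq_single j]
      · simp
      · intro b _ hb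
        have : ¬ (j.1 = b.1) := fun h => hb (Fin.ext h.symm)
        simp [this]
      · intro h
        exact absurd (Finset.mem_univ j) h
    simp only [h1] at h0
    have h3 : s.2 = t.2 := by
      ext j
      have h4 := congrArg (fun f : ℤ[X] => f.coeff (j.1 + 1)) h
      simp only [h2] at h4
      have h5 : (p : ℤ) ≠ 0 := by exact_mod_cast hp
      exact_mod_cast mul_left_cancel₀ h5 h4
    obtain ⟨a, b⟩ := s
    obtain ⟨c, d⟩ := t
    simp only at h0 h3
    have h0' : a = c := by exact_mod_cast h0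
    subst h0' h3
    rfl
  let bad : Set ℕ := ⋃ x ∈ (S ×ˢ S).filter (fun x => x.1 ≠ x.2),
    {E : ℕ | (q x.1 - q x.2).eval (E : ℤ) = 0}
  have hbad : bad.Finite := by
    refine Set.Finite.biUnion (Finset.finite_toSet _) fun x hx => ?_
    have hx' : x.1 ≠ x.2 := by
      have := Finset.mem_coe.1 hx
      exact (Finset.mem_filter.1 this).2
    have hne : q x.1 - q x.2 ≠ 0 := fun h => hx' (hq _ _ (sub_eq_zero.1 h))
    have hfin : {z : ℤ | (q x.1 - q x.2).IsRoot z}.Finite := Polynomial.finite_setOfPred_isRoot hne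
    exact hfin.preimage (Nat.cast_injective.injOn)
  obtain ⟨E, hE⟩ := (hbad.union (Set.finite_Iio 1)).exists_notMem
  rw [Set.mem_union, not_or] at hE
  refine ⟨E, not_lt.1 hE.2, ?_⟩
  intro s hs t ht h
  by_contra hne
  apply hE.1
  simp only [bad, Set.mem_iUnion]
  refine ⟨(s, t), ?_, ?_⟩
  · rw [Finset.mem_filter, Finset.mem_product]
    exact ⟨⟨hs, ht⟩, hne⟩
  · have hev : ∀ s : (Σ _ : ℕ, Fin m →₀ ℕ), (q s).eval (E : ℤ) =
        ((s.1 + p * ∑ i, s.2 i * E ^ (i.1 + 1) : ℕ) : ℤ) := by
      intro s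
      simp [q, eval_finsetSum]
    change (q s - q t).eval (E : ℤ) = 0
    rw [eval_sub, hev, hev, h, sub_self]

end exponents

section leading

variable {k : Type} [Field k] {m : ℕ}

/-- the value of a monomial -/
lemma shift_monomial (e : Fin m → ℕ) (he : ∀ i, 1 ≤ e i) (b : ℕ) (α : Fin m →₀ ℕ) (c : k) :
    ∃ M : (MvPolynomial (Fin m) k)[X], M.Monic ∧ M.natDegree = b + ∑ i, α i * e i ∧
      shift 1 e (C (MvPolynomial.monomial α c) * X ^ b) = C (MvPolynomial.C c) * M := by
  classical
  let fac : Fin m → (MvPolynomial (Fin m) k)[X] := fun i => C (MvPolynomial.X i) + X ^ (e i)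
  have hm : ∀ i, (fac i).Monic := fun i => by
    have h := monic_X_pow_add (n := e i) (p := C (MvPolynomial.X i : MvPolynomial (Fin m) k))
      (by
        refine degree_C_le.trans_lt ?_
        exact_mod_cast he i)
    rw [add_comm] at h
    exact h
  have hd : ∀ i, (fac i).natDegree = e i := fun i => by
    have h : (X ^ e i + C (MvPolynomial.X i : MvPolynomial (Fin m) k)).natDegree = e i :=
      natDegree_X_pow_add_C
    rw [add_comm] at h
    exact h
  refine ⟨X ^ b * ∏ i, fac i ^ α i, ?_, ?_, ?_⟩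
  · exact (monic_X_pow b).mul (monic_prod_of_monic _ _ fun i _ => (hm i).pow _)
  · rw [(monic_X_pow b).natDegree_mul (monic_prod_of_monic _ _ fun i _ => (hm i).pow _),
      natDegree_X_pow, natDegree_prod_of_monic _ _ fun i _ => (hm i).pow _]
    congr 1
    refine Finset.sum_congr rfl fun i _ => ?_
    rw [(hm i).natDegree_pow, hd]
  · have h1 : (MvPolynomial.monomial α c : MvPolynomial (Fin m) k) =
        MvPolynomial.C c * ∏ i, MvPolynomial.X i ^ α i := by
      rw [MvPolynomial.monomial_eq, Finsupp.prod_fintype _ _ fun i => pow_zero _]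
    rw [h1, map_mul, map_pow, shift_X, C_mul, map_mul, shift_CC, map_prod, map_prod]
    have h2 : ∀ i : Fin m, shift (1 : k) e (C (MvPolynomial.X i ^ α i)) = fac i ^ α i := by
      intro i
      rw [C_pow, map_pow, shift_CX, map_one, C_1, one_mul]
    simp only [h2]
    ring

/-- After a change of variables the leading coefficient is a constant. -/
theorem exists_leading (p : ℕ) (hp : p ≠ 0) (G : (MvPolynomial (Fin m) k)[X]) (hG : G ≠ 0) :
    ∃ e : Fin m → ℕ, (∀ i, p ∣ e i) ∧ ∃ (c : k) (F : (MvPolynomial (Fin m) k)[X]), c ≠ 0 ∧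
      F.Monic ∧ shift 1 e G = C (MvPolynomial.C c) * F := by
  classical
  let S : Finset (Σ _ : ℕ, Fin m →₀ ℕ) := G.support.sigma fun b => (G.coeff b).support
  obtain ⟨E, hE1, hE⟩ := exists_base p m hp S
  let e : Fin m → ℕ := fun i => p * E ^ (i.1 + 1)
  have he : ∀ i, 1 ≤ e i := fun i => Nat.succ_le_of_lt
    (Nat.mul_pos (Nat.pos_of_ne_zero hp) (pow_pos (by omega) _))
  have hsum : G = ∑ s ∈ S, C (MvPolynomial.monomial s.2 ((G.coeff s.1).coeff s.2)) * X ^ s.1 := by
    rw [Finset.sum_sigma]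
    conv_lhs => rw [G.as_sum_support_C_mul_X_pow]
    refine Finset.sum_congr rfl fun b _ => ?_
    conv_lhs => rw [(G.coeff b).as_sum]
    rw [map_sum, Finset.sum_mul]
  choose M hM1 hM2 hM3 using fun s : (Σ _ : ℕ, Fin m →₀ ℕ) =>
    shift_monomial (k := k) e he s.1 s.2 ((G.coeff s.1).coeff s.2)
  have hSne : S.Nonempty := by
    obtain ⟨b, hb⟩ := Polynomial.support_nonempty.2 hG
    obtain ⟨α, hα⟩ := MvPolynomial.support_nonempty.2 (Polynomial.mem_support_iff.1 hb)
    exact ⟨⟨b, α⟩, Finset.mem_sigma.2 ⟨hb, hα⟩⟩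
  obtain ⟨s0, hs0, hmax⟩ := Finset.exists_max_image S (fun s => (M s).natDegree) hSne
  have hinj : ∀ s ∈ S, (M s).natDegree = (M s0).natDegree → s = s0 := by
    intro s hs h
    refine hE s hs s0 hs0 ?_
    rw [hM2, hM2] at h
    simp only [e] at h
    have h1 : ∀ t : (Σ _ : ℕ, Fin m →₀ ℕ), ∑ i, t.2 i * (p * E ^ (i.1 + 1)) =
        p * ∑ i, t.2 i * E ^ (i.1 + 1) := by
      intro t
      rw [Finset.mul_sum]
      exact Finset.sum_congr rfl fun i _ => by ring
    rw [h1, h1] at h
    exact h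
  let c : k := (G.coeff s0.1).coeff s0.2
  have hc : c ≠ 0 := MvPolynomial.mem_support_iff.1 (Finset.mem_sigma.1 hs0).2
  have hcC : (C (MvPolynomial.C c) : (MvPolynomial (Fin m) k)[X]) * C (MvPolynomial.C c⁻¹) = 1 := by
    rw [← C_mul, ← map_mul, mul_inv_cancel₀ hc, map_one, C_1]
  let Rst : (MvPolynomial (Fin m) k)[X] :=
    ∑ s ∈ S.erase s0, C (MvPolynomial.C ((G.coeff s.1).coeff s.2)) * M s
  have hsh : shift 1 e G = C (MvPolynomial.C c) * M s0 + Rst := by
    conv_lhs => rw [hsum]
    rw [map_sum, ← Finset.add_sum_erase S _ hs0, hM3]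
    congr 1
    exact Finset.sum_congr rfl fun s _ => hM3 s
  have hRst : Rst.degree < (M s0).degree := by
    refine (degree_sum_le _ _).trans_lt ?_
    rw [Finset.sup_lt_iff (by
      rw [degree_eq_natDegree (hM1 s0).ne_zero]
      exact WithBot.bot_lt_coe _)]
    intro s hs
    have hs' := Finset.mem_erase.1 hs
    refine (degree_mul_le _ _).trans_lt ?_
    have h1 : (C (MvPolynomial.C ((G.coeff s.1).coeff s.2)) :
        (MvPolynomial (Fin m) k)[X]).degree ≤ 0 := degree_C_le
    have h2 : (M s).natDegree < (M s0).natDegree :=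
      lt_of_le_of_ne (hmax s hs'.2) fun h => hs'.1 (hinj s hs'.2 h)
    calc _ ≤ 0 + (M s).degree := by gcongr
      _ = (M s).degree := zero_add _
      _ < (M s0).degree := by
        rw [degree_eq_natDegree (hM1 s).ne_zero, degree_eq_natDegree (hM1 s0).ne_zero]
        exact_mod_cast h2
  refine ⟨e, fun i => Dvd.intro _ rfl, c, M s0 + C (MvPolynomial.C c⁻¹) * Rst, hc, ?_, ?_⟩
  · refine (hM1 s0).add_of_left ?_
    refine (degree_mul_le _ _).trans_lt ?_
    have h1 : (C (MvPolynomial.C c⁻¹) : (MvPolynomial (Fin m) k)[X]).degree ≤ 0 := degree_C_le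
    calc _ ≤ 0 + Rst.degree := by gcongr
      _ = Rst.degree := zero_add _
      _ < _ := hRst
  · rw [hsh, mul_add, ← mul_assoc, hcC, one_mul]

end leading

end Pool.Agent.Helper62.EC
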