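import Pool.Agent.Helper62.EC.Model
import Pool.Agent.Helper62.EC.Clear
import Pool.Agent.Helper62.EC.Nagata

/-!
# Finite étale covers of affine spaces as open subschemes
-/

set_option autoImplicit false

open Polynomial

namespace Pool.Agent.Helper62.EC

/-- Isomorphic presentations. -/
theorem exists_adjoinE {k R : Type} [Field k] [CommRing R] [Algebra k R] (s : R[X] ≃ₐ[k] R[X])
    (G F c : R[X]) (hc : IsUnit c) (h : s G = c * F) :
    Nonempty (AdjoinRoot G ≃ₐ[k] AdjoinRoot F) := by
  refine ⟨Ideal.quotientEquivAlg (Ideal.span {G}) (Ideal.span {F}) s ?_⟩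
  rw [Ideal.map_span, Set.image_singleton]
  change Ideal.span {F} = Ideal.span {s G}
  rw [h]
  exact (Ideal.span_singleton_mul_left_unit hc F).symm

/-- Localizations are given by monic polynomials with a constant discriminant. -/
theorem exists_monic {k : Type} [Field k] (p : ℕ) [CharP k p] (hp : p ≠ 0) {r : ℕ}
    (f : (MvPolynomial (Fin r) k)[X]) (g : MvPolynomial (Fin r) k) (hf : f.Monic)
    {u v : (MvPolynomial (Fin r) k)[X]} {δ : MvPolynomial (Fin r) k}
    (huv : u * f + v * derivative f = C δ) (hδg : δ ∣ g) :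
    ∃ F : (MvPolynomial (Fin r) k)[X], F.Monic ∧ IsCoprime F (derivative F) ∧
      Nonempty (Localization.Away (algebraMap (MvPolynomial (Fin r) k) (AdjoinRoot f) g) ≃ₐ[k]
        AdjoinRoot F) := by
  let R := MvPolynomial (Fin r) k
  obtain ⟨E2⟩ := exists_clearE (f := f) g hf
  have hcop := coprime_clear g hf huv hδg
  let G := clear f g
  have hG : G ≠ 0 := by
    intro h0
    obtain ⟨a, b, hab⟩ := hcop
    change a * G + b * derivative G = 1 at hab
    rw [h0, derivative_zero, mul_zero, mul_zero, add_zero] at hab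
    exact zero_ne_one hab
  obtain ⟨e, he, c, F, hc, hF, hs⟩ := exists_leading p hp G hG
  have hcu : IsUnit (C (MvPolynomial.C c) : R[X]) :=
    ((isUnit_iff_ne_zero.2 hc).map MvPolynomial.C).map C
  obtain ⟨E3⟩ := exists_adjoinE (shiftE e) G F (C (MvPolynomial.C c)) hcu hs
  have hcopF : IsCoprime F (derivative F) := by
    have h1 := hcop.map (shift (1 : k) e : R[X] →+* R[X])
    change IsCoprime (shift 1 e G) (shift 1 e (derivative G)) at h1
    rw [← derivative_shift 1 p e he, hs, derivative_C_mul] at h1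
    exact h1.of_mul_left_right.of_mul_right_right
  exact ⟨F, hF, hcopF, ⟨(E2.restrictScalars k).symm.trans E3⟩⟩

/-- A domain of finite type over a perfect field of characteristic `p` has a non-empty principal open
subscheme which is a finite étale cover of an affine space. -/
theorem exists_cover (k : Type) [Field k] [PerfectField k] (p : ℕ) [CharP k p] (hp : p ≠ 0)
    (B : Type) [CommRing B] [IsDomain B] [Algebra k B] [Algebra.FiniteType k B] (n : ℕ)
    (hB : ringKrullDim B ≤ n) :
    ∃ w : B, w ≠ 0 ∧ ∃ (r : ℕ) (F : (MvPolynomial (Fin r) k)[X]), r ≤ n ∧ F.Monic ∧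
      IsCoprime F (derivative F) ∧ Irreducible F ∧
      Nonempty (Localization.Away w ≃ₐ[k] AdjoinRoot F) := by
  classical
  let K := FractionRing B
  have e1 : Algebra.EssFiniteType B K := .of_isLocalization _ (nonZeroDivisors B)
  have e2 : Algebra.EssFiniteType k K := .comp _ B _
  obtain ⟨r, x, hx, θ, f, u, v, δ, hf, hδ, huv, hθ, hdvd, hfr⟩ := exists_field_model k K
  let R := MvPolynomial (Fin r) k
  let α : R →ₐ[k] K := MvPolynomial.aeval x
  have hα : Function.Injective α := algebraicIndependent_iff_injective_aeval.1 hx.1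
  let A := AdjoinRoot f
  let ψ : A →ₐ[k] K := AdjoinRoot.liftAlgHom f α θ hθ
  have hψmk : ∀ q : R[X], ψ (AdjoinRoot.mk f q) = q.eval₂ α θ := fun q =>
    AdjoinRoot.lift_mk hθ q
  have hψ : Function.Injective ψ := by
    rw [injective_iff_map_eq_zero]
    intro a ha
    obtain ⟨q, rfl⟩ := AdjoinRoot.mk_surjective a
    rw [hψmk] at ha
    exact AdjoinRoot.mk_eq_zero.2 (hdvd q ha)
  have hψR : ∀ a : R, ψ (algebraMap R A a) = α a := by
    intro a
    have h1 : algebraMap R A a = AdjoinRoot.mk f (C a) := rfl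
    rw [h1, hψmk, eval₂_C]
    rfl
  haveI : IsDomain A := hψ.isDomain ψ.toRingHom
  have hRA : Function.Injective (algebraMap R A) := by
    intro a b hab
    apply hα
    rw [← hψR, ← hψR, hab]
  haveI : Algebra.FiniteType R A := inferInstance
  haveI : Algebra.FiniteType k R := inferInstance
  haveI : Algebra.FiniteType k A := Algebra.FiniteType.trans (S := R) inferInstance inferInstance
  let φ : B →ₐ[k] K := IsScalarTower.toAlgHom k B K
  have hφ : Function.Injective φ := IsFractionRing.injective B K
  obtain ⟨w, g, hw, hg, hδg, ⟨E⟩⟩ := exists_common (R := R) ψ hψ φ hφ hRA (by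
      intro y
      obtain ⟨d, c, hd, h⟩ := hfr y
      exact ⟨d, AdjoinRoot.mk f c, hd, by rw [hψR, hψmk]; exact h⟩) (by
      intro y
      obtain ⟨⟨b, d⟩, h⟩ := IsLocalization.surj (nonZeroDivisors B) y
      refine ⟨d, b, nonZeroDivisors.ne_zero d.2, ?_⟩
      rw [mul_comm]
      exact h) δ hδ
  -- monogenic
  obtain ⟨F, hF, hcopF, ⟨E5⟩⟩ := exists_monic p hp f g hf huv hδg
  -- the localization is a domain
  have E4 : Localization.Away w ≃ₐ[k] AdjoinRoot F :=
    E.trans E5
  haveI : IsDomain (Localization.Away w) :=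
    IsLocalization.isDomain_localization (powers_le_nonZeroDivisors_of_noZeroDivisors hw)
  haveI : IsDomain (AdjoinRoot F) := E4.symm.toMulEquiv.isDomain _
  have hprime : Prime F := by
    have h1 : (Ideal.span {F}).IsPrime := (Ideal.Quotient.isDomain_iff_prime _).1
      (inferInstanceAs (IsDomain (AdjoinRoot F)))
    exact (Ideal.span_singleton_prime hF.ne_zero).1 h1
  have hirr : Irreducible F := hprime.irreducible
  refine ⟨w, hw, r, F, ?_, hF, hcopF, hirr, ⟨E4⟩⟩
  -- the dimension
  have hdeg : F.degree ≠ 0 := by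
    intro h0
    exact hirr.not_isUnit (by rw [hF.degree_le_zero_iff_eq_one.1 h0.le]; exact isUnit_one)
  have hinj : Function.Injective (algebraMap R (AdjoinRoot F)) :=
    AdjoinRoot.of.injective_of_degree_ne_zero hdeg
  haveI : Module.Finite R (AdjoinRoot F) := hF.finite_adjoinRoot
  haveI : Algebra.IsIntegral R (AdjoinRoot F) := Algebra.IsIntegral.of_finite R (AdjoinRoot F)
  have h1 := Pool.Agent.Z125.UN.dim_le_of_integral (R := R) (S := AdjoinRoot F) hinj
  have h2 := (ringKrullDim_eq_of_ringEquiv E4.toRingEquiv)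
  rw [← h2] at h1
  have h3 := h1.trans ((Pool.Agent.Z125.UN.dim_away w).trans hB)
  rw [MvPolynomial.ringKrullDim_of_isNoetherianRing, ringKrullDim_eq_zero_of_field, zero_add,
    Nat.card_eq_fintype_card, Fintype.card_fin] at h3
  exact_mod_cast h3

end Pool.Agent.Helper62.EC
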