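import Pool.Agent.Helper62.EC.Fam

/-!
# The pairings for the product with the affine line
-/

set_option autoImplicit false

open CategoryTheory AlgebraicGeometry Pool.Agent.Y116.UV Pool.Agent.N882.UE

namespace Pool.Agent.Helper62.EC

variable {k : Type} [Field k] {T : Motivic k} (hT : IsMotivic T)

include hT

/-- for a fixed twist -/
lemma cls_perfect (n : ℤ) : Cls True fun X => Perfect T X n where
  iso := (clo_perfect hT n).iso
  total := (clo_perfect hT n).total
  opened := (clo_perfect hT n).opened
  closed := (clo_perfect hT n).closed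

/-- for all twists -/
lemma cls_all : Cls True fun X => ∀ n, Perfect T X n where
  iso := fun hX e h n => (clo_perfect hT n).iso hX e (h n)
  total := fun i j hX ht hZ hU n => (clo_perfect hT n).total i j hX ht (hZ n) (hU n)
  opened := fun i j hX ht hZ hX' n => (clo_perfect hT n).opened i j hX ht (hZ n) (hX' n)
  closed := fun i j hX ht hX' hU n => (clo_perfect hT n).closed i j hX ht (hX' n) (hU n)

/-- The pairings of `X × 𝔸¹` with twist `n + 1` are perfect if and only if the pairings of `X` with
twist `n` are. -/
theorem perfect_line (A : Type) [CommRing A] [Algebra k A] [Algebra.FiniteType k A] (n : ℤ) :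
    Perfect T (aff k (Polynomial A)) (n + 1) ↔ Perfect T (aff k A) n := by
  have h1 : IsOpenImmersion (𝟙 (aff k A) : aff k A ⟶ aff k A).left :=
    inferInstanceAs (IsOpenImmersion (𝟙 (aff k A).left))
  have h2 : Set.range (𝟙 (aff k A) : aff k A ⟶ aff k A).left =
      {x : PrimeSpectrum A | ∃ l, f1 A 1 l ∉ x.asIdeal} := by
    have h1 : Set.range (𝟙 (aff k A) : aff k A ⟶ aff k A).left = Set.univ := Set.range_id
    have h2 : {x : PrimeSpectrum A | ∃ l, f1 A 1 l ∉ x.asIdeal} = Set.univ := by
      rw [Set.eq_univ_iff_forall]
      intro x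
      exact ⟨0, fun h => x.isPrime.ne_top ((Ideal.eq_top_iff_one _).mpr h)⟩
    exact h1.trans h2.symm
  obtain ⟨h3, h4⟩ := hT.bundle A 2 (f1 A 1) (aff k A) (𝟙 _) h1 h2
  have e1 : Jou (f1 A 1) ≃ₐ[k] Polynomial A :=
    ((jouOne A 1).trans (MvPolynomial.uniqueAlgEquiv A (Fin 1))).restrictScalars k
  have : Algebra.FiniteType k (Jou (f1 A 1)) :=
    Algebra.FiniteType.trans (S := A) inferInstance inferInstance
  have h5 : Perfect T (aff k (Polynomial A)) (n + 1) ↔ Perfect T (aff k (Jou (f1 A 1))) (n + 1) :=
    ⟨iso_alg (cls_perfect hT (n + 1)) e1.symm, iso_alg (cls_perfect hT (n + 1)) e1⟩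
  rw [h5]
  constructor
  · intro h
    refine perfect_factor h3 ?_
    convert h using 1
    norm_num
  · intro h
    refine perfect_factor h4 ?_
    convert h using 1
    norm_num

/-- the pairings with a given twist -/
lemma fam_perfect (hadd : ∀ (A B : Type) [CommRing A] [Algebra k A] [Algebra.FiniteType k A]
    [CommRing B] [Algebra k B] [Algebra.FiniteType k B], Factor T (aff k A) (aff k (A × B)) 0 0) :
    Fam True fun n X => Perfect T X n where
  cls := cls_perfect hT
  add := fun n A B _ _ _ _ _ _ h => perfect_factor (hadd A B) (by rw [add_zero]; exact h)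
  line := fun n A _ _ _ => perfect_line hT A n

/-- the pairings with all twists -/
lemma fam_all (hadd : ∀ (A B : Type) [CommRing A] [Algebra k A] [Algebra.FiniteType k A]
    [CommRing B] [Algebra k B] [Algebra.FiniteType k B], Factor T (aff k A) (aff k (A × B)) 0 0) :
    Fam True fun _ X => ∀ n, Perfect T X n where
  cls := fun _ => cls_all hT
  add := fun _ A B _ _ _ _ _ _ h n => (fam_perfect hT hadd).add n A B (h n)
  line := fun _ A _ _ _ => by
    constructor
    · intro h n
      exact (perfect_line hT A n).1 (h _)
    · intro h n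
      have h1 := (perfect_line hT A (n - 1)).2 (h _)
      rw [sub_add_cancel] at h1
      exact h1

end Pool.Agent.Helper62.EC
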