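import Pool.Agent.Helper62.EC.Common
import Pool.Graph.R_seed8.Z125.UN.Dim2

/-!
# Generically étale models of domains of finite type over a perfect field
-/

set_option autoImplicit false

open Polynomial

namespace Pool.Agent.Helper62.EC

/-- A finitely generated extension of a perfect field is generated by algebraically independent
elements `x` and a root `θ` of a monic polynomial over `k[x]` which is separable over `k(x)`. -/
theorem exists_field_model (k : Type) [Field k] [PerfectField k] (K : Type) [Field K]
    [Algebra k K] [Algebra.EssFiniteType k K] :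
    ∃ (r : ℕ) (x : Fin r → K), IsTranscendenceBasis k x ∧
      ∃ (θ : K) (f u v : (MvPolynomial (Fin r) k)[X]) (δ : MvPolynomial (Fin r) k),
        f.Monic ∧ δ ≠ 0 ∧ u * f + v * derivative f = C δ ∧
        f.eval₂ (MvPolynomial.aeval x : MvPolynomial (Fin r) k →ₐ[k] K) θ = 0 ∧
        (∀ q : (MvPolynomial (Fin r) k)[X],
          q.eval₂ (MvPolynomial.aeval x : MvPolynomial (Fin r) k →ₐ[k] K) θ = 0 → f ∣ q) ∧
        ∀ y : K, ∃ (d : MvPolynomial (Fin r) k) (c : (MvPolynomial (Fin r) k)[X]), d ≠ 0 ∧
          (MvPolynomial.aeval x : MvPolynomial (Fin r) k →ₐ[k] K) d * y =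
            c.eval₂ (MvPolynomial.aeval x : MvPolynomial (Fin r) k →ₐ[k] K) θ := by
  classical
  obtain ⟨s, hs, hsep⟩ := exists_isTranscendenceBasis_and_isSeparable_of_perfectField k K
  let e : Fin s.card ≃ s := s.equivFin.symm
  let x : Fin s.card → K := fun i => (e i : K)
  have hx : IsTranscendenceBasis k x := hs.comp_equiv e
  have hrange : Set.range x = (s : Set K) := by
    have h1 : x = (fun y : s => (y : K)) ∘ e := rfl
    rw [h1, e.surjective.range_comp]
    exact Subtype.range_coe
  have hxa : AlgebraicIndependent k x := hx.1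
  refine ⟨s.card, x, hx, ?_⟩
  let R := MvPolynomial (Fin s.card) k
  let α : R →ₐ[k] K := MvPolynomial.aeval x
  letI : Algebra R K := α.toRingHom.toAlgebra
  have hαinj : Function.Injective (algebraMap R K) :=
    algebraicIndependent_iff_injective_aeval.1 hxa
  haveI : FaithfulSMul R K := (faithfulSMul_iff_algebraMap_injective R K).2 hαinj
  haveI : IsScalarTower k R K := IsScalarTower.of_algebraMap_eq fun a => (α.commutes a).symm
  let Fr := FractionRing R
  letI : Algebra Fr K := FractionRing.liftAlgebra R K
  haveI : IsScalarTower R Fr K := FractionRing.isScalarTower_liftAlgebra R K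
  haveI : IsScalarTower k Fr K := IsScalarTower.to₁₃₄ k R Fr K
  haveI : Module.IsTorsionFree R K := inferInstance
  -- separability
  haveI hsep' : Algebra.IsSeparable Fr K := by
    have h1 : Algebra.IsSeparable (IntermediateField.adjoin k (Set.range x)) K := by
      rw [hrange]
      exact hsep
    refine Algebra.IsSeparable.of_equiv_equiv
      (A₁ := IntermediateField.adjoin k (Set.range x)) (B₁ := K)
      (hxa.aevalEquivField.symm.toRingEquiv) (RingEquiv.refl K) ?_
    apply RingHom.ext
    intro y
    obtain ⟨a, rfl⟩ := hxa.aevalEquivField.surjective y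
    change algebraMap Fr K (hxa.aevalEquivField.symm (hxa.aevalEquivField a)) =
      ((hxa.aevalEquivField a : IntermediateField.adjoin k (Set.range x)) : K)
    rw [AlgEquiv.symm_apply_apply, hxa.aevalEquivField_apply_coe]
    rfl
  haveI : Algebra.EssFiniteType Fr K := Algebra.EssFiniteType.of_comp k Fr K
  haveI : FiniteDimensional Fr K := by
    obtain ⟨t, ht⟩ := IntermediateField.fg_top Fr K
    have h1 : FiniteDimensional Fr (IntermediateField.adjoin Fr (t : Set K)) :=
      IntermediateField.finiteDimensional_adjoin fun x _ => Algebra.IsIntegral.isIntegral x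
    rw [ht] at h1
    exact IntermediateField.topEquiv.toLinearEquiv.finiteDimensional
  obtain ⟨β, hβ⟩ := Field.exists_primitive_element Fr K
  have halg : Algebra.IsAlgebraic R K :=
    (IsFractionRing.comap_isAlgebraic_iff (A := R) (K := Fr) (C := K)).mpr inferInstance
  obtain ⟨d0, hd0, hint⟩ := (Algebra.IsAlgebraic.isAlgebraic (R := R) β).exists_integral_multiple
  let θ : K := d0 • β
  have hθ : IntermediateField.adjoin Fr {θ} = ⊤ := by
    rw [eq_top_iff, ← hβ, IntermediateField.adjoin_simple_le_iff]
    have h1 : β = (algebraMap Fr K (algebraMap R Fr d0))⁻¹ * θ := by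
      have h2 : algebraMap Fr K (algebraMap R Fr d0) = algebraMap R K d0 :=
        (IsScalarTower.algebraMap_apply R Fr K d0).symm
      have h3 : algebraMap R K d0 ≠ 0 := fun h => hd0 (hαinj (h.trans (map_zero _).symm))
      rw [h2]
      change β = _ * (d0 • β)
      rw [Algebra.smul_def, inv_mul_cancel_left₀ h3]
    rw [h1]
    refine mul_mem (inv_mem (IntermediateField.algebraMap_mem _ _)) ?_
    exact IntermediateField.mem_adjoin_simple_self Fr θ
  have hθint : IsIntegral R θ := hint
  let f : R[X] := minpoly R θ
  have hfm : f.Monic := minpoly.monic hθint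
  have hfF : minpoly Fr θ = f.map (algebraMap R Fr) :=
    minpoly.isIntegrallyClosed_eq_field_fractions' Fr hθint
  have hinjF : Function.Injective (algebraMap R Fr) := IsFractionRing.injective R Fr
  -- the different
  have hsepθ : (minpoly Fr θ).Separable := Algebra.IsSeparable.isSeparable Fr θ
  obtain ⟨a, b, hab⟩ := hsepθ
  obtain ⟨⟨da, hda⟩, hda'⟩ := IsLocalization.integerNormalization_map_to_map (nonZeroDivisors R) a
  obtain ⟨⟨db, hdb⟩, hdb'⟩ := IsLocalization.integerNormalization_map_to_map (nonZeroDivisors R) b
  set ua := IsLocalization.integerNormalization (nonZeroDivisors R) a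
  set vb := IsLocalization.integerNormalization (nonZeroDivisors R) b
  have hua : ua.map (algebraMap R Fr) = C (algebraMap R Fr da) * a := by
    rw [hda']
    change da • a = _
    rw [Algebra.smul_def]
    rfl
  have hvb : vb.map (algebraMap R Fr) = C (algebraMap R Fr db) * b := by
    rw [hdb']
    change db • b = _
    rw [Algebra.smul_def]
    rfl
  refine ⟨θ, f, C db * ua, C da * vb, da * db, hfm,
    mul_ne_zero (nonZeroDivisors.ne_zero hda) (nonZeroDivisors.ne_zero hdb), ?_, ?_, ?_, ?_⟩
  · apply Polynomial.map_injective _ hinjF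
    rw [Polynomial.map_add, Polynomial.map_mul, Polynomial.map_mul, Polynomial.map_mul,
      Polynomial.map_mul, map_C, map_C, map_C, hua, hvb, ← derivative_map, ← hfF, map_mul, C_mul]
    linear_combination C (algebraMap R Fr da) * C (algebraMap R Fr db) * hab
  · exact minpoly.aeval R θ
  · intro q hq
    exact minpoly.isIntegrallyClosed_dvd hθint hq
  · intro y
    have hy : y ∈ IntermediateField.adjoin Fr {θ} := by
      rw [hθ]
      trivial
    have hy2 : y ∈ Algebra.adjoin Fr {θ} := by
      rw [← IntermediateField.adjoin_simple_toSubalgebra_of_isAlgebraic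
        (Algebra.IsAlgebraic.isAlgebraic θ)]
      exact hy
    rw [Algebra.adjoin_singleton_eq_range_aeval] at hy2
    obtain ⟨q, hq⟩ := hy2
    obtain ⟨⟨dq, hdq⟩, hdq'⟩ :=
      IsLocalization.integerNormalization_map_to_map (nonZeroDivisors R) q
    refine ⟨dq, IsLocalization.integerNormalization (nonZeroDivisors R) q,
      nonZeroDivisors.ne_zero hdq, ?_⟩
    have h1 := congrArg (aeval θ) hdq'
    change algebraMap R K dq * y = aeval θ (IsLocalization.integerNormalization (nonZeroDivisors R) q)
    rw [aeval_map_algebraMap] at h1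
    rw [h1]
    change _ = aeval θ (dq • q)
    rw [← hq]
    change _ = aeval θ (dq • q)
    rw [Algebra.smul_def, map_mul]
    congr 1
    have h2 : algebraMap R Fr[X] dq = C (algebraMap R Fr dq) := rfl
    rw [h2, aeval_C]
    exact IsScalarTower.algebraMap_apply R Fr K dq

end Pool.Agent.Helper62.EC
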