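import Pool.Agent.Helper62.EC.Cls

/-!
# Open immersions which are not principal
-/

set_option autoImplicit false

open CategoryTheory AlgebraicGeometry Pool.Agent.Y116.UV

namespace Pool.Agent.Helper62.EC

section loc

variable {S B : Type} [CommRing S] [CommRing B]

/-- `φ` is an isomorphism of the localizations at `s` and `φ s` -/
def LocIso (φ : S →+* B) (s : S) : Prop :=
  (∀ a, φ a = 0 → ∃ n : ℕ, s ^ n * a = 0) ∧ ∀ b, ∃ (n : ℕ) (a : S), φ s ^ n * b = φ a

variable {φ : S →+* B} {s : S} (h : LocIso φ s)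

include h

lemma LocIso.loc [Algebra S (Localization.Away (φ s))]
    (halg : ∀ a, algebraMap S (Localization.Away (φ s)) a = algebraMap B _ (φ a)) :
    IsLocalization.Away s (Localization.Away (φ s)) := by
  refine ⟨?_, ?_, ?_⟩
  · rintro ⟨_, n, rfl⟩
    change IsUnit (algebraMap S _ (s ^ n))
    rw [map_pow, halg]
    exact (IsLocalization.Away.algebraMap_isUnit (φ s)).pow n
  · intro z
    obtain ⟨⟨b, ⟨_, m, rfl⟩⟩, hz⟩ := IsLocalization.surj (Submonoid.powers (φ s)) z
    obtain ⟨n, a, ha⟩ := h.2 b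
    refine ⟨(a, ⟨s ^ (n + m), n + m, rfl⟩), ?_⟩
    change z * algebraMap S _ (s ^ (n + m)) = algebraMap S _ a
    change z * algebraMap B _ (φ s ^ m) = algebraMap B _ b at hz
    rw [halg, halg, ← ha, map_mul, ← hz, map_pow, pow_add, map_mul]
    ring
  · intro x y hxy
    rw [halg, halg] at hxy
    obtain ⟨⟨_, m, rfl⟩, hc⟩ := (IsLocalization.eq_iff_exists (Submonoid.powers (φ s))
      (Localization.Away (φ s))).mp hxy
    change φ s ^ m * φ x = φ s ^ m * φ y at hc
    obtain ⟨n, hn⟩ := h.1 (s ^ m * x - s ^ m * y) (by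
      rw [map_sub, map_mul, map_mul, map_pow, hc, sub_self])
    refine ⟨⟨s ^ (n + m), n + m, rfl⟩, ?_⟩
    change s ^ (n + m) * x = s ^ (n + m) * y
    rw [mul_sub, sub_eq_zero] at hn
    rw [pow_add, mul_assoc, mul_assoc]
    exact hn

lemma LocIso.inj (x y : PrimeSpectrum B) (hx : φ s ∉ x.asIdeal)
    (hxy : PrimeSpectrum.comap φ x = PrimeSpectrum.comap φ y) : x = y := by
  have h1 : ∀ a, φ a ∈ x.asIdeal ↔ φ a ∈ y.asIdeal := by
    intro a
    have h2 := congrArg (fun z : PrimeSpectrum S => a ∈ z.asIdeal) hxy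
    exact iff_of_eq h2
  have hy : φ s ∉ y.asIdeal := fun h2 => hx ((h1 s).2 h2)
  ext b
  obtain ⟨n, a, ha⟩ := h.2 b
  have h3 : ∀ z : PrimeSpectrum B, φ s ∉ z.asIdeal → (b ∈ z.asIdeal ↔ φ a ∈ z.asIdeal) := by
    intro z hz
    rw [← ha]
    constructor
    · intro h4
      exact Ideal.mul_mem_left _ _ h4
    · intro h4
      rcases z.isPrime.mem_or_mem h4 with h5 | h5
      · exact absurd (z.isPrime.mem_of_pow_mem n h5) hz
      · exact h5
  rw [h3 x hx, h3 y hy, h1]

lemma LocIso.imm : IsOpenImmersion (Spec.map (CommRingCat.ofHom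
    ((algebraMap B (Localization.Away (φ s))).comp φ))) := by
  letI : Algebra S (Localization.Away (φ s)) :=
    ((algebraMap B (Localization.Away (φ s))).comp φ).toAlgebra
  have h1 : IsLocalization.Away s (Localization.Away (φ s)) := h.loc fun a => rfl
  exact IsOpenImmersion.of_isLocalization s

lemma LocIso.range : PrimeSpectrum.comap φ '' {x | φ s ∉ x.asIdeal} =
    {x : PrimeSpectrum S | s ∉ x.asIdeal} := by
  letI : Algebra S (Localization.Away (φ s)) :=
    ((algebraMap B (Localization.Away (φ s))).comp φ).toAlgebra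
  have h1 : IsLocalization.Away s (Localization.Away (φ s)) := h.loc fun a => rfl
  have h2 := PrimeSpectrum.localization_away_comap_range (Localization.Away (φ s)) s
  ext x
  constructor
  · rintro ⟨y, hy, rfl⟩
    exact hy
  · intro hx
    have hx' : x ∈ (PrimeSpectrum.basicOpen s : Set (PrimeSpectrum S)) := hx
    rw [← h2] at hx'
    obtain ⟨z, rfl⟩ := hx'
    refine ⟨PrimeSpectrum.comap (algebraMap B _) z, ?_, rfl⟩
    intro h3
    exact z.isPrime.ne_top (Ideal.eq_top_of_isUnit_mem _ h3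
      (IsLocalization.Away.algebraMap_isUnit (φ s)))

end loc

section two

variable {R S B : Type} [CommRing R] [CommRing S] [CommRing B] [Algebra R S] [Algebra R B]
  {φ : S →ₐ[R] B} {s₁ s₂ : S}

lemma unit_cases {a b : B} (h : a * φ s₁ + b * φ s₂ = 1) (x : PrimeSpectrum B) :
    φ s₁ ∉ x.asIdeal ∨ φ s₂ ∉ x.asIdeal := by
  by_contra hcon
  push Not at hcon
  apply x.isPrime.ne_top
  rw [Ideal.eq_top_iff_one, ← h]
  exact add_mem (Ideal.mul_mem_left _ _ hcon.1) (Ideal.mul_mem_left _ _ hcon.2)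

/-- The union of two principal open subschemes. -/
theorem isOpenImmersion_two {a b : B} (h : a * φ s₁ + b * φ s₂ = 1)
    (h1 : LocIso (φ : S →+* B) s₁) (h2 : LocIso (φ : S →+* B) s₂) :
    IsOpenImmersion (affMap φ).left := by
  apply IsOpenImmersion.of_forall_source_exists
  · intro x y hxy
    change PrimeSpectrum.comap (φ : S →+* B) x = PrimeSpectrum.comap (φ : S →+* B) y at hxy
    rcases unit_cases h x with hx | hx
    · exact h1.inj x y hx hxy
    · exact h2.inj x y hx hxy
  · intro x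
    have key : ∀ s : S, LocIso (φ : S →+* B) s → φ s ∉ x.asIdeal →
        ∃ (U : Scheme) (i : U ⟶ (aff R B).left) (_ : IsOpenImmersion i), x ∈ i.opensRange ∧
          IsOpenImmersion (i ≫ (affMap φ).left) := by
      intro s hs hx
      have hi : IsOpenImmersion (Spec.map (CommRingCat.ofHom (algebraMap B
          (Localization.Away (φ s))))) := IsOpenImmersion.of_isLocalization (φ s)
      refine ⟨Spec (.of (Localization.Away (φ s))), Spec.map (CommRingCat.ofHom (algebraMap B _)),
        hi, ?_, ?_⟩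
      · change x ∈ Set.range (PrimeSpectrum.comap (algebraMap B (Localization.Away (φ s))))
        rw [PrimeSpectrum.localization_away_comap_range (Localization.Away (φ s)) (φ s)]
        exact hx
      · have h3 := hs.imm
        rw [CommRingCat.ofHom_comp, Spec.map_comp] at h3
        exact h3
    rcases unit_cases h x with hx | hx
    · exact key s₁ h1 hx
    · exact key s₂ h2 hx

theorem range_two {a b : B} (h : a * φ s₁ + b * φ s₂ = 1)
    (h1 : LocIso (φ : S →+* B) s₁) (h2 : LocIso (φ : S →+* B) s₂) :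
    Set.range (affMap φ).left = {x : PrimeSpectrum S | s₁ ∉ x.asIdeal ∨ s₂ ∉ x.asIdeal} := by
  ext x
  constructor
  · rintro ⟨y, rfl⟩
    exact unit_cases h y
  · rintro (hx | hx)
    · have hx' : x ∈ {x : PrimeSpectrum S | s₁ ∉ x.asIdeal} := hx
      rw [← h1.range] at hx'
      obtain ⟨y, _, rfl⟩ := hx'
      exact ⟨y, rfl⟩
    · have hx' : x ∈ {x : PrimeSpectrum S | s₂ ∉ x.asIdeal} := hx
      rw [← h2.range] at hx'
      obtain ⟨y, _, rfl⟩ := hx'
      exact ⟨y, rfl⟩

/-- The closed complement. -/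
theorem triple_two {a b : B} (h : a * φ s₁ + b * φ s₂ = 1)
    (h1 : LocIso (φ : S →+* B) s₁) (h2 : LocIso (φ : S →+* B) s₂) {C : Type} [CommRing C]
    [Algebra R C] (π : S →ₐ[R] C) (hπ : Function.Surjective π)
    (hker : RingHom.ker (π : S →+* C) = Ideal.span {s₁, s₂}) :
    IsTriple (affMap π) (affMap φ) where
  closed := closed_affMap _ hπ
  opened := isOpenImmersion_two h h1 h2
  compl := by
    rw [range_affMap _ hπ, range_two h h1 h2]
    ext x
    change (∀ a, π a = 0 → a ∈ x.asIdeal) ↔ ¬ (s₁ ∉ x.asIdeal ∨ s₂ ∉ x.asIdeal)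
    push Not
    have h3 : ∀ a, π a = 0 ↔ a ∈ Ideal.span {s₁, s₂} := by
      intro a
      rw [← hker]
      rfl
    constructor
    · intro h4
      exact ⟨h4 _ ((h3 _).2 (Ideal.subset_span (by simp))),
        h4 _ ((h3 _).2 (Ideal.subset_span (by simp)))⟩
    · rintro ⟨h4, h5⟩ a ha
      rw [h3] at ha
      refine (Ideal.span_le.2 ?_) ha
      rintro y (rfl | rfl)
      · exact h4
      · exact h5

end two

end Pool.Agent.Helper62.EC
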