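import Pool.Agent.Helper62.EC.AS

/-!
# The roots of unity of order `p - 1`
-/

set_option autoImplicit false

open CategoryTheory AlgebraicGeometry Polynomial Pool.Agent.Y116.UV

namespace Pool.Agent.Helper62.EC

section roots

lemma prod_zmod (p : ℕ) [Fact p.Prime] :
    (X ^ (p - 1) - 1 : (ZMod p)[X]) = ∏ a ∈ Finset.univ.erase (0 : ZMod p), (X - C a) := by
  have hp : 2 ≤ p := (Fact.out : p.Prime).two_le
  have h1 : (X ^ p - X : (ZMod p)[X]) = ∏ a : ZMod p, (X - C a) := by
    have h2 : (X ^ p - X : (ZMod p)[X]).Monic := by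
      refine monic_X_pow_sub ?_
      rw [degree_X]
      exact_mod_cast hp
    have h3 := FiniteField.roots_X_pow_card_sub_X (ZMod p)
    rw [ZMod.card] at h3
    have h4 := prod_multiset_X_sub_C_of_monic_of_roots_card_eq h2 (by
      rw [h3, FiniteField.X_pow_card_sub_X_natDegree_eq (ZMod p) (by omega)]
      change Finset.univ.card = p
      rw [Finset.card_univ, ZMod.card])
    rw [h3] at h4
    exact h4.symm
  rw [← Finset.mul_prod_erase _ _ (Finset.mem_univ (0 : ZMod p)), C_0, sub_zero,
    pow_split p hp] at h1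
  exact mul_left_cancel₀ X_ne_zero h1

/-- the image of `𝔽_p ∖ {0}` in `k` -/
noncomputable def unts (k : Type) [Field k] (p : ℕ) [Fact p.Prime] [CharP k p] : Finset k :=
  open Classical in (Finset.univ.erase (0 : ZMod p)).image (ZMod.castHom dvd_rfl k)

lemma prod_unts (k : Type) [Field k] (p : ℕ) [Fact p.Prime] [CharP k p] :
    (X ^ (p - 1) - 1 : k[X]) = ∏ a ∈ unts k p, (X - C a) := by
  classical
  have h1 := congrArg (Polynomial.map (ZMod.castHom dvd_rfl k)) (prod_zmod p)
  rw [Polynomial.map_sub, Polynomial.map_pow, Polynomial.map_one, map_X, Polynomial.map_prod] at h1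
  rw [h1, unts]
  have hinj : Function.Injective (ZMod.castHom dvd_rfl k : ZMod p →+* k) :=
    (ZMod.castHom dvd_rfl k : ZMod p →+* k).injective
  have h2 := Finset.prod_image (s := Finset.univ.erase (0 : ZMod p))
    (g := (ZMod.castHom dvd_rfl k : ZMod p →+* k)) (f := fun a => (X - C a : k[X]))
    (fun a _ b _ h => hinj h)
  convert h2.symm using 1
  · refine Finset.prod_congr rfl fun a _ => ?_
    rw [Polynomial.map_sub, map_X, map_C]

lemma unts_nonempty (k : Type) [Field k] (p : ℕ) [Fact p.Prime] [CharP k p] :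
    (unts k p).Nonempty := by
  classical
  refine ⟨ZMod.castHom dvd_rfl k 1, ?_⟩
  rw [unts, Finset.mem_image]
  exact ⟨1, by simp, rfl⟩

end roots

section split

variable {k : Type} [Field k]

/-- the algebra `G[T] / ∏ (T - a)` -/
abbrev Spl (G : Type) [CommRing G] [Algebra k G] (s : Finset k) : Type :=
  AdjoinRoot (∏ a ∈ s, (X - C (algebraMap k G a)))

variable (G : Type) [CommRing G] [Algebra k G]

lemma spl_insert [DecidableEq k] (s : Finset k) (a : k) (ha : a ∉ s) :
    Nonempty (Spl G (insert a s) ≃ₐ[k] G × Spl G s) := by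
  let I : Ideal G[X] := Ideal.span {X - C (algebraMap k G a)}
  let J : Ideal G[X] := Ideal.span {∏ a ∈ s, (X - C (algebraMap k G a))}
  have hcop : IsCoprime I J := by
    rw [Ideal.isCoprime_span_singleton_iff]
    refine IsCoprime.prod_right fun b hb => ?_
    have hu : IsUnit (C (algebraMap k G (b - a))) := by
      refine IsUnit.map C (IsUnit.map (algebraMap k G) ?_)
      rw [isUnit_iff_ne_zero, sub_ne_zero]
      rintro rfl
      exact ha hb
    obtain ⟨v, hv⟩ := hu.exists_right_inv
    refine ⟨v, -v, ?_⟩
    rw [map_sub, C_sub] at hv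
    linear_combination hv
  have hIJ : Ideal.span {∏ a ∈ insert a s, (X - C (algebraMap k G a))} = I * J := by
    rw [Finset.prod_insert ha, Ideal.span_singleton_mul_span_singleton]
  let e1 : Spl G (insert a s) ≃+* G[X] ⧸ I * J := Ideal.quotEquivOfEq hIJ
  let e2 := Ideal.quotientMulEquivQuotientProd I J hcop
  let e3 : (G[X] ⧸ I) ≃ₐ[G] G := quotientSpanXSubCAlgEquiv (algebraMap k G a)
  let e : Spl G (insert a s) ≃+* G × Spl G s :=
    (e1.trans e2).trans (RingEquiv.prodCongr e3.toRingEquiv (RingEquiv.refl _))
  refine ⟨AlgEquiv.ofRingEquiv (f := e) fun r => ?_⟩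
  have h1 : e (algebraMap k _ r) = (e3 (Ideal.Quotient.mk I (C (algebraMap k G r))),
    Ideal.Quotient.mk J (C (algebraMap k G r))) := rfl
  rw [h1]
  have h2 : Ideal.Quotient.mk I (C (algebraMap k G r)) =
    algebraMap G (G[X] ⧸ I) (algebraMap k G r) := rfl
  rw [h2, AlgEquiv.commutes]
  rfl

end split

section prod

variable {R : Type} [CommRing R] {A B : Type} [CommRing A] [CommRing B] [Algebra R A] [Algebra R B]

lemma triple_prod : IsTriple (affMap (AlgHom.snd R A B)) (affMap (AlgHom.fst R A B)) where
  closed := closed_affMap _ Prod.snd_surjective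
  opened := by
    let := (RingHom.fst A B).toAlgebra
    exact IsOpenImmersion.of_isLocalization (R := A × B) (S := A) (1, 0)
  compl := by
    rw [range_affMap _ Prod.snd_surjective]
    have h : Set.range (affMap (AlgHom.fst R A B)).left =
        Set.range (PrimeSpectrum.comap (RingHom.fst A B)) := rfl
    rw [h, range_comap_of_surjective _ (RingHom.fst A B) Prod.fst_surjective]
    ext x
    change (∀ a : A × B, a.2 = 0 → a ∈ x.asIdeal) ↔ ¬ (∀ a : A × B, a.1 = 0 → a ∈ x.asIdeal)
    constructor
    · intro h1 h2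
      apply x.isPrime.ne_top
      rw [Ideal.eq_top_iff_one]
      have h3 : (1 : A × B) = (1, 0) + (0, 1) := by ext <;> simp
      rw [h3]
      exact add_mem (h1 _ rfl) (h2 _ rfl)
    · intro h1
      push Not at h1
      obtain ⟨a, ha, ha'⟩ := h1
      intro b hb
      have h3 : a * b = 0 := by
        ext
        · change a.1 * b.1 = 0
          rw [ha, zero_mul]
        · change a.2 * b.2 = 0
          rw [hb, mul_zero]
      have h4 : a * b ∈ x.asIdeal := by
        rw [h3]
        exact x.asIdeal.zero_mem
      exact (x.isPrime.mem_or_mem h4).resolve_left ha'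

variable {sep : Prop} {P : Sch R → Prop} (hP : Cls sep P)

include hP

lemma p_prod [Algebra.FiniteType R A] [Algebra.FiniteType R B] (h1 : P (aff R A))
    (h2 : P (aff R B)) : P (aff R (A × B)) :=
  hP.total _ _ (ft_aff sep) triple_prod h2 h1

end prod

section spl

variable {k : Type} [Field k] {sep : Prop} {P : Sch k → Prop} (hP : Cls sep P) {G : Type}
  [CommRing G] [Algebra k G] [Algebra.FiniteType k G]

lemma ft_spl (s : Finset k) : Algebra.FiniteType k (Spl G s) :=
  Algebra.FiniteType.trans (S := G) inferInstance inferInstance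

include hP

lemma p_spl (s : Finset k) (h : P (aff k G)) : P (aff k (Spl G s)) := by
  classical
  induction s using Finset.induction_on with
  | empty =>
    refine p_empty hP h _ ?_
    change Subsingleton (G[X] ⧸ Ideal.span {∏ a ∈ (∅ : Finset k), (X - C (algebraMap k G a))})
    rw [Finset.prod_empty, Ideal.span_singleton_one]
    exact Ideal.Quotient.subsingleton_iff.mpr rfl
  | insert a s ha ih =>
    obtain ⟨e⟩ := spl_insert G s a ha
    have := ft_spl (k := k) (G := G) s
    exact iso_alg hP e.symm (p_prod hP h ih)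

lemma p_of_spl (hadd : ∀ (A B : Type) [CommRing A] [Algebra k A] [Algebra.FiniteType k A]
    [CommRing B] [Algebra k B] [Algebra.FiniteType k B], P (aff k (A × B)) → P (aff k A))
    (s : Finset k) (hs : s.Nonempty) (h : P (aff k (Spl G s))) : P (aff k G) := by
  classical
  obtain ⟨a, ha⟩ := hs
  have h1 : s = insert a (s.erase a) := (Finset.insert_erase ha).symm
  rw [h1] at h
  obtain ⟨e⟩ := spl_insert G (s.erase a) a (Finset.notMem_erase a s)
  have := ft_spl (k := k) (G := G) (s.erase a)
  have := ft_spl (k := k) (G := G) (insert a (s.erase a))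
  exact hadd _ _ (iso_alg hP e h)

end spl

end Pool.Agent.Helper62.EC
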