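import Pool.Agent.Helper62.EC.Chart

/-!
# Artin–Schreier algebras `t ^ p - t = y u + g`
-/

set_option autoImplicit false

open CategoryTheory AlgebraicGeometry Polynomial Pool.Agent.Y116.UV

namespace Pool.Agent.Helper62.EC

section step

variable (p : ℕ) {G : Type} [CommRing G] (u g : G)

/-- `y u + g` -/
noncomputable abbrev lin : G[X] := X * C u + C g

/-- the coordinate `y` -/
noncomputable def ly : AS p (lin u g) := algebraMap G[X] (AS p (lin u g)) X

lemma lin_map : algebraMap G[X] (AS p (lin u g)) (lin u g) =
    ly p u g * algebraMap G (AS p (lin u g)) u + algebraMap G (AS p (lin u g)) g := by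
  change algebraMap G[X] (AS p (lin u g)) (X * C u + C g) = _
  rw [map_add, map_mul]
  rfl

lemma lin_rel : rt p (lin u g) ^ p - rt p (lin u g) =
    ly p u g * algebraMap G (AS p (lin u g)) u + algebraMap G (AS p (lin u g)) g := by
  rw [rt_rel, lin_map]

variable {p u g} in
lemma lin_ext {B : Type} [CommRing B] [Algebra G B] {φ ψ : AS p (lin u g) →ₐ[G] B}
    (h1 : φ (ly p u g) = ψ (ly p u g)) (h2 : φ (rt p (lin u g)) = ψ (rt p (lin u g))) : φ = ψ := by
  apply as_ext _ h2
  intro q
  have h4 : φ.comp (IsScalarTower.toAlgHom G G[X] (AS p (lin u g))) =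
      ψ.comp (IsScalarTower.toAlgHom G G[X] (AS p (lin u g))) := by
    apply Polynomial.algHom_ext
    exact h1
  exact DFunLike.congr_fun h4 q

/-- a homomorphism from the algebra -/
noncomputable def linLift {B : Type} [CommRing B] [Algebra G B] (y t : B)
    (h : t ^ p - t = y * algebraMap G B u + algebraMap G B g) : AS p (lin u g) →ₐ[G] B :=
  asLift (aeval y) t (by
    rw [h]
    change _ = aeval y (X * C u + C g)
    rw [map_add, map_mul, aeval_X, aeval_C, aeval_C])

section

variable {p u g} {B : Type} [CommRing B] [Algebra G B] {y t : B}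
  {h : t ^ p - t = y * algebraMap G B u + algebraMap G B g}

lemma linLift_ly : linLift p u g y t h (ly p u g) = y := by
  rw [linLift, ly, asLift_of, aeval_X]

lemma linLift_rt : linLift p u g y t h (rt p (lin u g)) = t := asLift_rt _ _ _

end

section closed

/-- the image of `g` in `G / u` -/
abbrev gb : G ⧸ Ideal.span {u} := Ideal.Quotient.mk (Ideal.span {u}) g

lemma gb_alg : algebraMap G (AS p (gb u g)) g = algebraMap (G ⧸ Ideal.span {u}) _ (gb u g) := rfl

lemma u_alg : algebraMap G (AS p (gb u g)) u = 0 := by
  have h1 : algebraMap G (AS p (gb u g)) u =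
      algebraMap (G ⧸ Ideal.span {u}) _ (Ideal.Quotient.mk (Ideal.span {u}) u) := rfl
  rw [h1, Ideal.Quotient.eq_zero_iff_mem.2 (Ideal.mem_span_singleton_self u), map_zero]

variable {p u g} in
lemma cl_ext {B : Type} [CommRing B] [Algebra G B] {φ ψ : (AS p (gb u g))[X] →ₐ[G] B}
    (h1 : φ X = ψ X) (h2 : φ (C (rt p (gb u g))) = ψ (C (rt p (gb u g)))) : φ = ψ := by
  apply AlgHom.coe_ringHom_injective
  apply Polynomial.ringHom_ext _ h1
  intro a
  change φ (C a) = ψ (C a)
  have h3 : φ.comp (IsScalarTower.toAlgHom G (AS p (gb u g)) (AS p (gb u g))[X]) =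
      ψ.comp (IsScalarTower.toAlgHom G (AS p (gb u g)) (AS p (gb u g))[X]) := by
    apply as_ext _ h2
    intro b
    obtain ⟨b, rfl⟩ := Ideal.Quotient.mk_surjective b
    change φ (algebraMap G _ b) = ψ (algebraMap G _ b)
    rw [AlgHom.commutes, AlgHom.commutes]
  exact DFunLike.congr_fun h3 a

/-- restriction -/
noncomputable def clRes : AS p (lin u g) →ₐ[G] (AS p (gb u g))[X] :=
  linLift p u g X (C (rt p (gb u g))) (by
    have h1 : algebraMap G (AS p (gb u g))[X] u = C (algebraMap G (AS p (gb u g)) u) := rfl
    have h2 : algebraMap G (AS p (gb u g))[X] g = C (algebraMap G (AS p (gb u g)) g) := rfl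
    rw [h1, h2, u_alg, C_0, mul_zero, zero_add, gb_alg, ← rt_rel, C_sub, C_pow])

/-- the function `u` -/
noncomputable def lu : AS p (lin u g) := algebraMap G _ u

/-- to the closed subscheme -/
noncomputable def clF : (AS p (lin u g) ⧸ Ideal.span {lu p u g}) →ₐ[G] (AS p (gb u g))[X] :=
  Ideal.Quotient.liftₐ _ (clRes p u g) (by
    intro a ha
    rw [Ideal.mem_span_singleton] at ha
    obtain ⟨c, rfl⟩ := ha
    have h1 : clRes p u g (lu p u g) = 0 := by
      change clRes p u g (algebraMap G _ u) = 0
      rw [AlgHom.commutes]
      change C (algebraMap G (AS p (gb u g)) u) = 0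
      rw [u_alg, C_0]
    rw [map_mul, h1, zero_mul])

/-- from `G / u` -/
noncomputable def clG0 : (G ⧸ Ideal.span {u}) →ₐ[G] (AS p (lin u g) ⧸ Ideal.span {lu p u g}) :=
  Ideal.Quotient.liftₐ _ (Algebra.ofId G _) (by
    intro a ha
    rw [Ideal.mem_span_singleton] at ha
    obtain ⟨c, rfl⟩ := ha
    have h1 : Algebra.ofId G (AS p (lin u g) ⧸ Ideal.span {lu p u g}) u = 0 := by
      change Ideal.Quotient.mk _ (lu p u g) = 0
      exact Ideal.Quotient.eq_zero_iff_mem.2 (Ideal.mem_span_singleton_self _)
    rw [map_mul, h1, zero_mul])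

lemma clG0_mk (a : G) : clG0 p u g (Ideal.Quotient.mk _ a) =
    Ideal.Quotient.mk _ (algebraMap G (AS p (lin u g)) a) := rfl

/-- from the algebra of `G / u` -/
noncomputable def clG1 : AS p (gb u g) →ₐ[G] (AS p (lin u g) ⧸ Ideal.span {lu p u g}) :=
  asLift (clG0 p u g) (Ideal.Quotient.mk _ (rt p (lin u g))) (by
    rw [clG0_mk, ← map_pow, ← map_sub, lin_rel, map_add, map_mul]
    have h1 : Ideal.Quotient.mk (Ideal.span {lu p u g}) (algebraMap G (AS p (lin u g)) u) = 0 :=
      Ideal.Quotient.eq_zero_iff_mem.2 (Ideal.mem_span_singleton_self _)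
    rw [h1, mul_zero, zero_add])

/-- from the closed subscheme -/
noncomputable def clG : (AS p (gb u g))[X] →ₐ[G] (AS p (lin u g) ⧸ Ideal.span {lu p u g}) :=
  eval₂AlgHom (clG1 p u g) (Ideal.Quotient.mk _ (ly p u g)) fun _ => Commute.all _ _

lemma clG_X : clG p u g X = Ideal.Quotient.mk _ (ly p u g) := by
  simp [clG]

lemma clG_rt : clG p u g (C (rt p (gb u g))) = Ideal.Quotient.mk _ (rt p (lin u g)) := by
  have h1 : clG p u g (C (rt p (gb u g))) = clG1 p u g (rt p (gb u g)) := by simp [clG]
  rw [h1, clG1, asLift_rt]

/-- the closed subscheme `u = 0` -/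
noncomputable def clE : (AS p (lin u g) ⧸ Ideal.span {lu p u g}) ≃ₐ[G] (AS p (gb u g))[X] :=
  AlgEquiv.ofAlgHom (clF p u g) (clG p u g)
    (by
      apply cl_ext
      · change clF p u g (clG p u g X) = X
        rw [clG_X]
        change clRes p u g (ly p u g) = X
        rw [clRes, linLift_ly]
      · change clF p u g (clG p u g (C (rt p (gb u g)))) = C (rt p (gb u g))
        rw [clG_rt]
        change clRes p u g (rt p (lin u g)) = _
        rw [clRes, linLift_rt])
    (by
      apply AlgHom.coe_ringHom_injective
      apply Ideal.Quotient.ringHom_ext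
      have h1 : ((clG p u g).comp (clF p u g)).comp
          (Ideal.Quotient.mkₐ G (Ideal.span {lu p u g})) =
          Ideal.Quotient.mkₐ G (Ideal.span {lu p u g}) := by
        apply lin_ext
        · change clG p u g (clRes p u g (ly p u g)) = Ideal.Quotient.mk _ (ly p u g)
          rw [clRes, linLift_ly, clG_X]
        · change clG p u g (clRes p u g (rt p (lin u g))) = Ideal.Quotient.mk _ (rt p (lin u g))
          rw [clRes, linLift_rt, clG_rt]
      exact RingHom.ext fun a => DFunLike.congr_fun h1 a)

end closed

section opened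

/-- the open subscheme -/
noncomputable def opG0 : Localization.Away u →ₐ[G] Localization.Away (lu p u g) :=
  IsLocalization.liftAlgHom (M := Submonoid.powers u)
    (f := Algebra.ofId G (Localization.Away (lu p u g))) (by
      rintro ⟨_, n, rfl⟩
      change IsUnit (algebraMap G (Localization.Away (lu p u g)) (u ^ n))
      rw [map_pow]
      refine IsUnit.pow n ?_
      have h1 : algebraMap G (Localization.Away (lu p u g)) u =
          algebraMap (AS p (lin u g)) _ (lu p u g) := rfl
      rw [h1]
      exact IsLocalization.Away.algebraMap_isUnit _)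

/-- the open subscheme -/
noncomputable def opG : (Localization.Away u)[X] →ₐ[G] Localization.Away (lu p u g) :=
  eval₂AlgHom (opG0 p u g) (algebraMap (AS p (lin u g)) _ (rt p (lin u g)))
    fun _ => Commute.all _ _

lemma opG_X : opG p u g X = algebraMap (AS p (lin u g)) _ (rt p (lin u g)) := by
  simp [opG]

/-- the inverse of `u` -/
noncomputable def ui : Localization.Away u := IsLocalization.Away.invSelf u

lemma ui_mul : ui u * algebraMap G (Localization.Away u) u = 1 := by
  rw [mul_comm]
  exact IsLocalization.Away.mul_invSelf u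

/-- the open subscheme -/
noncomputable def opRes : AS p (lin u g) →ₐ[G] (Localization.Away u)[X] :=
  linLift p u g ((X ^ p - X - C (algebraMap G _ g)) * C (ui u)) X (by
    have h1 : algebraMap G (Localization.Away u)[X] u = C (algebraMap G (Localization.Away u) u) :=
      rfl
    have h2 : algebraMap G (Localization.Away u)[X] g = C (algebraMap G (Localization.Away u) g) :=
      rfl
    rw [h1, h2, mul_assoc, ← C_mul, ui_mul, C_1, mul_one]
    ring)

/-- the open subscheme -/
noncomputable def opF : Localization.Away (lu p u g) →ₐ[G] (Localization.Away u)[X] :=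
  IsLocalization.liftAlgHom (M := Submonoid.powers (lu p u g)) (f := opRes p u g) (by
      rintro ⟨_, n, rfl⟩
      change IsUnit (opRes p u g (lu p u g ^ n))
      rw [map_pow]
      refine IsUnit.pow n ?_
      change IsUnit (opRes p u g (algebraMap G _ u))
      rw [AlgHom.commutes]
      exact (IsLocalization.Away.algebraMap_isUnit (S := Localization.Away u) u).map C)

lemma opF_alg (a : AS p (lin u g)) : opF p u g (algebraMap _ _ a) = opRes p u g a := by
  change IsLocalization.liftAlgHom _ _ = _
  rw [IsLocalization.liftAlgHom_apply, IsLocalization.lift_eq]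
  rfl

/-- the open subscheme `u ≠ 0` -/
noncomputable def opE : Localization.Away (lu p u g) ≃ₐ[G] (Localization.Away u)[X] :=
  AlgEquiv.ofAlgHom (opF p u g) (opG p u g)
    (by
      apply AlgHom.coe_ringHom_injective
      apply Polynomial.ringHom_ext'
      · apply IsLocalization.ringHom_ext (Submonoid.powers u)
        apply RingHom.ext
        intro a
        change ((opF p u g).comp (opG p u g)) (algebraMap G _ a) = algebraMap G _ a
        rw [AlgHom.commutes]
      · change opF p u g (opG p u g X) = X
        rw [opG_X, opF_alg, opRes, linLift_rt])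
    (by
      apply AlgHom.coe_ringHom_injective
      apply IsLocalization.ringHom_ext (Submonoid.powers (lu p u g))
      have h1 : ((opG p u g).comp (opF p u g)).comp
          (IsScalarTower.toAlgHom G (AS p (lin u g)) (Localization.Away (lu p u g))) =
          IsScalarTower.toAlgHom G (AS p (lin u g)) (Localization.Away (lu p u g)) := by
        have hrt : ((opG p u g).comp (opF p u g)) (algebraMap _ _ (rt p (lin u g))) =
            algebraMap _ _ (rt p (lin u g)) := by
          change opG p u g (opF p u g (algebraMap _ _ (rt p (lin u g)))) = _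
          rw [opF_alg, opRes, linLift_rt, opG_X]
        apply lin_ext _ hrt
        -- multiply by `u`
        have hu : IsUnit (algebraMap G (Localization.Away (lu p u g)) u) := by
          have h1 : algebraMap G (Localization.Away (lu p u g)) u =
            algebraMap (AS p (lin u g)) _ (lu p u g) := rfl
          rw [h1]
          exact IsLocalization.Away.algebraMap_isUnit _
        apply hu.mul_right_cancel
        have h3 := congrArg (IsScalarTower.toAlgHom G (AS p (lin u g))
          (Localization.Away (lu p u g))) (lin_rel p u g)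
        have h4 := congrArg ((opG p u g).comp (opF p u g)) h3
        rw [map_sub, map_pow, map_add, map_mul, AlgHom.commutes, AlgHom.commutes] at h3
        rw [map_sub, map_pow, map_add, map_mul, AlgHom.commutes, AlgHom.commutes, map_sub,
          map_pow, map_add, map_mul, AlgHom.commutes, AlgHom.commutes] at h4
        have h5 : ((opG p u g).comp (opF p u g)) ((IsScalarTower.toAlgHom G (AS p (lin u g))
          (Localization.Away (lu p u g))) (rt p (lin u g))) =
          (IsScalarTower.toAlgHom G (AS p (lin u g))
          (Localization.Away (lu p u g))) (rt p (lin u g)) := hrt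
        rw [h5, h3] at h4
        exact (add_right_cancel h4).symm
      exact RingHom.ext fun a => DFunLike.congr_fun h1 a)

end opened

end step

end Pool.Agent.Helper62.EC
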