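import Pool.Agent.Helper62.EC.Step

/-!
# Artin–Schreier algebras `t ^ p - t = ∑ y_l f_l`
-/

set_option autoImplicit false

open CategoryTheory AlgebraicGeometry Polynomial Pool.Agent.Y116.UV

namespace Pool.Agent.Helper62.EC

lemma as_congr {k A₁ A₂ : Type} [CommRing k] [CommRing A₁] [CommRing A₂] [Algebra k A₁]
    [Algebra k A₂] (p : ℕ) (e : A₁ ≃ₐ[k] A₂) {g₁ : A₁} {g₂ : A₂} (h : e g₁ = g₂) :
    Nonempty (AS p g₁ ≃ₐ[k] AS p g₂) := by
  refine ⟨Ideal.quotientEquivAlg _ _ (Polynomial.mapAlgEquiv e) ?_⟩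
  rw [Ideal.map_span, Set.image_singleton]
  have h1 : (Polynomial.mapAlgEquiv e) (asp p g₁) = asp p g₂ := by
    change (asp p g₁).map (e : A₁ →+* A₂) = _
    rw [asp, asp, Polynomial.map_sub, Polynomial.map_sub, Polynomial.map_pow, map_X, map_C, ← h]
    rfl
  change Ideal.span {asp p g₂} = Ideal.span {(Polynomial.mapAlgEquiv e) (asp p g₁)}
  rw [h1]

section lform

variable {A : Type} [CommRing A] {c : ℕ}

/-- the linear form `∑ y_l f_l` -/
noncomputable def lform (f : Fin c → A) : MvPolynomial (Fin c) A :=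
  ∑ l, MvPolynomial.X l * MvPolynomial.C (f l)

lemma lform_one (f : Fin 1 → A) :
    MvPolynomial.uniqueAlgEquiv A (Fin 1) (lform f) = X * C (f 0) := by
  rw [lform, Fin.sum_univ_one, map_mul]
  have h1 : MvPolynomial.uniqueAlgEquiv A (Fin 1) (MvPolynomial.X 0) = X :=
    MvPolynomial.eval₂_X _ _ _
  have h2 : MvPolynomial.uniqueAlgEquiv A (Fin 1) (MvPolynomial.C (f 0)) = C (f 0) :=
    MvPolynomial.eval₂_C _ _ _
  rw [h1, h2]

lemma lform_succ (f : Fin (c + 1) → A) :
    MvPolynomial.finSuccEquiv A c (lform f) =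
      lin (MvPolynomial.C (f 0)) (lform fun l => f l.succ) := by
  have hC : ∀ a : A, MvPolynomial.finSuccEquiv A c (MvPolynomial.C a) = C (MvPolynomial.C a) := by
    intro a
    have h := (MvPolynomial.finSuccEquiv A c).commutes a
    exact h
  rw [lform, Fin.sum_univ_succ, map_add, map_mul, MvPolynomial.finSuccEquiv_X_zero, hC, lin, lform,
    map_sum, map_sum]
  congr 1
  refine Finset.sum_congr rfl fun l _ => ?_
  rw [map_mul, MvPolynomial.finSuccEquiv_X_succ, hC, ← C_mul]

/-- reduction modulo `u` -/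
theorem lform_quot {k : Type} [CommRing k] [Algebra k A] (u : A) (f : Fin c → A) :
    ∃ e : (MvPolynomial (Fin c) A ⧸ Ideal.span {MvPolynomial.C u}) ≃ₐ[k]
        MvPolynomial (Fin c) (A ⧸ Ideal.span {u}),
      e (gb (MvPolynomial.C u) (lform f)) =
        lform fun l => Ideal.Quotient.mk (Ideal.span {u}) (f l) := by
  have h1 : Ideal.span {MvPolynomial.C u} =
      (Ideal.map MvPolynomial.C (Ideal.span {u}) : Ideal (MvPolynomial (Fin c) A)) := by
    rw [Ideal.map_span, Set.image_singleton]
  let e1 : (MvPolynomial (Fin c) A ⧸ Ideal.span {MvPolynomial.C u}) ≃ₐ[k]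
      (MvPolynomial (Fin c) A ⧸
        (Ideal.map MvPolynomial.C (Ideal.span {u}) : Ideal (MvPolynomial (Fin c) A))) :=
    Ideal.quotientEquivAlgOfEq k h1
  let e2 := (MvPolynomial.quotientEquivQuotientMvPolynomial (σ := Fin c)
    (Ideal.span {u})).restrictScalars k
  refine ⟨e1.trans e2.symm, ?_⟩
  change e2.symm (Ideal.Quotient.mk _ (lform f)) = _
  rw [AlgEquiv.symm_apply_eq, lform, lform, map_sum, map_sum]
  refine Finset.sum_congr rfl fun l _ => ?_
  rw [map_mul, map_mul]
  have h2 : e2 (MvPolynomial.X l) = Ideal.Quotient.mk _ (MvPolynomial.X l) :=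
    MvPolynomial.eval₂_X _ _ _
  have h3 : e2 (MvPolynomial.C (Ideal.Quotient.mk (Ideal.span {u}) (f l))) =
      Ideal.Quotient.mk _ (MvPolynomial.C (f l)) :=
    MvPolynomial.eval₂_C _ _ _
  rw [h2, h3]

end lform

section tri

/-- A family `P n` of properties of schemes of finite type over `k`, indexed by the twists: they are
closed under closed-open decompositions, a disjoint union has the property only if both parts have it, and
`X × 𝔸¹` has the property `P (n + 1)` if and only if `X` has the property `P n`. -/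
structure Fam {k : Type} [Field k] (sep : Prop) (P : ℤ → Sch k → Prop) : Prop where
  cls : ∀ n, Cls sep (P n)
  add : ∀ (n : ℤ) (A B : Type) [CommRing A] [Algebra k A] [Algebra.FiniteType k A]
    [CommRing B] [Algebra k B] [Algebra.FiniteType k B], P n (aff k (A × B)) → P n (aff k A)
  line : ∀ (n : ℤ) (A : Type) [CommRing A] [Algebra k A] [Algebra.FiniteType k A],
    P (n + 1) (aff k A[X]) ↔ P n (aff k A)

variable {k : Type} [Field k] (p : ℕ) [Fact p.Prime] [CharP k p] {sep : Prop}
  {P : ℤ → Sch k → Prop} (hP : Fam sep P)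

include hP

lemma p_mv {A : Type} [CommRing A] [Algebra k A] [Algebra.FiniteType k A] (c : ℕ) {n : ℤ}
    (h : P n (aff k A)) : P (n + c) (aff k (MvPolynomial (Fin c) A)) := by
  induction c with
  | zero =>
    rw [Nat.cast_zero, add_zero]
    exact iso_alg (hP.cls n) ((MvPolynomial.isEmptyAlgEquiv A (Fin 0)).restrictScalars k).symm h
  | succ c ih =>
    have h1 : P (n + c + 1) (aff k (MvPolynomial (Fin c) A)[X]) := (hP.line _ _).2 ih
    rw [Nat.cast_succ, ← add_assoc]
    exact iso_alg (hP.cls _) ((MvPolynomial.finSuccEquiv A c).restrictScalars k).symm h1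

/-- The algebra `t ^ p - t = y u + g`. -/
theorem step_iff {G : Type} [CommRing G] [Algebra k G] [Algebra.FiniteType k G] (u g : G) {n : ℤ}
    (h1 : P n (aff k G)) (h2 : P n (aff k (G ⧸ Ideal.span {u}))) :
    P (n + 1) (aff k (AS p (lin u g))) ↔ P n (aff k (AS p (gb u g))) := by
  have h3 : P n (aff k (Localization.Away u)) := ring_open (hP.cls n) u h2 h1
  have hf : Algebra.FiniteType k (Localization.Away u) :=
    Algebra.FiniteType.trans (S := G) inferInstance inferInstance
  have h4 : P (n + 1) (aff k (Localization.Away u)[X]) := (hP.line _ _).2 h3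
  have h5 : P (n + 1) (aff k (Localization.Away (lu p u g))) :=
    iso_alg (hP.cls _) ((opE p u g).restrictScalars k).symm h4
  have h6 : P (n + 1) (aff k (AS p (lin u g) ⧸ Ideal.span {lu p u g})) ↔
      P n (aff k (AS p (gb u g))) := by
    rw [← hP.line n (AS p (gb u g))]
    exact ⟨iso_alg (hP.cls _) ((clE p u g).restrictScalars k),
      iso_alg (hP.cls _) ((clE p u g).restrictScalars k).symm⟩
  rw [← h6]
  exact ⟨fun h => ring_closed (hP.cls _) _ h h5, fun h => ring_total (hP.cls _) _ h h5⟩

/-- The Artin–Schreier algebra `t ^ p - t = ∑ y_l f_l` and the closed subscheme `f_l = 0`. -/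
theorem tri_iff (n : ℤ) (c : ℕ) : ∀ (A : Type) [CommRing A] [Algebra k A] [Algebra.FiniteType k A]
    (f : Fin (c + 1) → A),
    (∀ j ≤ c, P n (aff k (A ⧸ Ideal.span (f '' {i | i.val < j})))) →
    (P (n + (c + 1 : ℕ)) (aff k (AS p (lform f))) ↔
      P n (aff k (A ⧸ Ideal.span (Set.range f)))) := by
  induction c with
  | zero =>
    intro A _ _ _ f h
    have h0 : P n (aff k A) := by
      have h1 := h 0 le_rfl
      have h2 : Ideal.span (f '' {i | i.val < 0}) = (⊥ : Ideal A) := by
        simp
      rw [h2] at h1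
      exact iso_alg (hP.cls n) (AlgEquiv.quotientBot k A) h1
    obtain ⟨e⟩ := as_congr p ((MvPolynomial.uniqueAlgEquiv A (Fin 1)).restrictScalars k)
      (lform_one f)
    have h3 : P (n + (0 + 1 : ℕ)) (aff k (AS p (lform f))) ↔
        P (n + 1) (aff k (AS p (yf (f 0)))) := by
      have h5 : n + ((0 + 1 : ℕ) : ℤ) = n + 1 := rfl
      rw [h5]
      exact ⟨iso_alg (hP.cls _) e, iso_alg (hP.cls _) e.symm⟩
    have h4 : Set.range f = {f 0} := by
      ext x
      constructor
      · rintro ⟨i, rfl⟩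
        have hi : i = 0 := Fin.ext (by omega)
        rw [hi]
        rfl
      · rintro rfl
        exact ⟨0, rfl⟩
    rw [h3, as_iff p (hP.cls (n + 1)) (f 0) (hP.add (n + 1)) ((hP.line n A).2 h0), hP.line, h4]
  | succ c ih =>
    intro A _ _ _ f h
    have h0 : P n (aff k A) := by
      have h1 := h 0 (Nat.zero_le _)
      have h2 : Ideal.span (f '' {i | i.val < 0}) = (⊥ : Ideal A) := by
        simp
      rw [h2] at h1
      exact iso_alg (hP.cls n) (AlgEquiv.quotientBot k A) h1
    have h1 : P n (aff k (A ⧸ Ideal.span {f 0})) := by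
      have h1 := h 1 (by omega)
      have h2 : f '' {i | i.val < 1} = {f 0} := by
        have h3 : {i : Fin (c + 1 + 1) | i.val < 1} = {0} := by
          ext i
          simp only [Set.mem_ofPred_eq, Set.mem_singleton_iff, Fin.ext_iff, Fin.val_zero]
          omega
        rw [h3, Set.image_singleton]
      rw [h2] at h1
      exact h1
    let A' := A ⧸ Ideal.span {f 0}
    let f' : Fin (c + 1) → A' := fun l => Ideal.Quotient.mk _ (f l.succ)
    obtain ⟨e⟩ := as_congr p ((MvPolynomial.finSuccEquiv A (c + 1)).restrictScalars k)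
      (lform_succ f)
    obtain ⟨e1, he1⟩ := lform_quot (k := k) (f 0) (fun l => f l.succ)
    obtain ⟨e2⟩ := as_congr p e1 he1
    have h3 : P (n + (c + 1 + 1 : ℕ)) (aff k (AS p (lform f))) ↔
        P (n + (c + 1 : ℕ) + 1)
          (aff k (AS p (lin (MvPolynomial.C (f 0)) (lform fun l => f l.succ)))) := by
      rw [Nat.cast_succ (c + 1), ← add_assoc]
      exact ⟨iso_alg (hP.cls _) e, iso_alg (hP.cls _) e.symm⟩
    have h4 : P (n + (c + 1 : ℕ)) (aff k (MvPolynomial (Fin (c + 1)) A)) := p_mv hP _ h0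
    have h5 : P (n + (c + 1 : ℕ)) (aff k (MvPolynomial (Fin (c + 1)) A ⧸
        Ideal.span {MvPolynomial.C (f 0)})) :=
      iso_alg (hP.cls _) e1.symm (p_mv hP _ h1)
    have h6 := step_iff p hP (MvPolynomial.C (f 0)) (lform fun l => f l.succ) h4 h5
    have h7 : P (n + (c + 1 : ℕ))
        (aff k (AS p (gb (MvPolynomial.C (f 0)) (lform fun l => f l.succ)))) ↔
        P (n + (c + 1 : ℕ)) (aff k (AS p (lform f'))) :=
      ⟨iso_alg (hP.cls _) e2, iso_alg (hP.cls _) e2.symm⟩
    -- double quotients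
    have hq : ∀ S : Set A, Nonempty ((A' ⧸ Ideal.span (Ideal.Quotient.mk (Ideal.span {f 0}) '' S))
        ≃ₐ[k] (A ⧸ Ideal.span ({f 0} ∪ S))) := by
      intro S
      have h8 : Ideal.span (Ideal.Quotient.mk (Ideal.span {f 0}) '' S) =
          Ideal.map (Ideal.Quotient.mkₐ k (Ideal.span {f 0})) (Ideal.span S) := by
        rw [Ideal.map_span]
        rfl
      have h9 : Ideal.span ({f 0} ∪ S) = Ideal.span {f 0} ⊔ Ideal.span S := Ideal.span_union _ _
      rw [h8, h9]
      exact ⟨DoubleQuot.quotQuotEquivQuotSupₐ k _ _⟩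
    have h8 : ∀ j ≤ c, P n (aff k (A' ⧸ Ideal.span (f' '' {i | i.val < j}))) := by
      intro j hj
      obtain ⟨e3⟩ := hq ((fun l => f l.succ) '' {i : Fin (c + 1) | i.val < j})
      have h9 : f' '' {i | i.val < j} = Ideal.Quotient.mk (Ideal.span {f 0}) ''
          ((fun l => f l.succ) '' {i : Fin (c + 1) | i.val < j}) := by
        rw [← Set.image_comp]
        rfl
      rw [h9]
      refine iso_alg (hP.cls n) e3.symm ?_
      have h10 := h (j + 1) (by omega)
      have h11 : f '' {i | i.val < j + 1} = {f 0} ∪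
          ((fun l => f l.succ) '' {i : Fin (c + 1) | i.val < j}) := by
        ext x
        constructor
        · rintro ⟨i, hi, rfl⟩
          refine Fin.cases (fun _ => Or.inl rfl) (fun l hl => Or.inr ⟨l, ?_, rfl⟩) i hi
          change (l.succ).val < j + 1 at hl
          rw [Fin.val_succ] at hl
          exact Nat.lt_of_succ_lt_succ hl
        · rintro (rfl | ⟨l, hl, rfl⟩)
          · exact ⟨0, Nat.succ_pos _, rfl⟩
          · exact ⟨l.succ, by
              change (l.succ).val < j + 1
              rw [Fin.val_succ]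
              exact Nat.succ_lt_succ hl, rfl⟩
      rw [h11] at h10
      exact h10
    rw [h3, h6, h7, ih A' f' h8]
    obtain ⟨e3⟩ := hq (Set.range fun l : Fin (c + 1) => f l.succ)
    have h9 : Set.range f' = Ideal.Quotient.mk (Ideal.span {f 0}) ''
        (Set.range fun l : Fin (c + 1) => f l.succ) := by
      rw [← Set.range_comp]
      rfl
    have h10 : Set.range f = {f 0} ∪ Set.range fun l : Fin (c + 1) => f l.succ := by
      rw [Fin.range_fin_succ]
      rfl
    rw [h9, h10]
    exact ⟨iso_alg (hP.cls n) e3, iso_alg (hP.cls n) e3.symm⟩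

end tri

end Pool.Agent.Helper62.EC
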